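import Mathlib
import Pool.Agent.TH804.DL2

/-!
Jensen's formula when the value at the centre is a little smaller than the bound.
-/

set_option autoImplicit false

open MeasureTheory Metric Filter Finset
open scoped ComplexConjugate ENNReal Topology
open Pool.Agent.TH804.DL

set_option maxHeartbeats 4000000

namespace Pool.Agent.T2h09.LD

/-- zeros, with multiplicities -/
theorem zeros2 {g : ℂ → ℂ} (hg : Differentiable ℂ g) {R M M₀ τ : ℝ} (hR : 0 < R)
    (hM : 1 ≤ M) (hM₀ : 0 < M₀) (hτ : 0 ≤ τ) (h0 : M₀ ≤ ‖g 0‖)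
    (hb : ∀ z : ℂ, ‖z‖ ≤ R → ‖g z‖ ≤ M * Real.exp (τ * |z.re|)) {S : Finset ℂ}
    (hS : ∀ z ∈ S, ‖z‖ ≤ R) :
    ∑ z ∈ S, (analyticOrderNatAt g z : ℝ) * Real.log (R / ‖z‖) ≤
      2 * R / Real.pi * τ + (Real.log M - Real.log M₀) := by
  classical
  have hne : g 0 ≠ 0 := by
    intro h1
    rw [h1, norm_zero] at h0
    linarith
  have han : AnalyticOnNhd ℂ g (closedBall 0 R) := fun z _ => hg.analyticAt z
  obtain ⟨Z, hZ, hJ⟩ := jensen g R hR han hne
  have hlow : ∑ z ∈ S, (analyticOrderNatAt g z : ℝ) * Real.log (R / ‖z‖) ≤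
      ∑ u ∈ Z, (analyticOrderNatAt g u : ℝ) * Real.log (R / ‖u‖) := by
    rw [← sum_filter_add_sum_filter_not S (fun z => analyticOrderNatAt g z ≠ 0)]
    have h1 : ∑ z ∈ S.filter (fun z => ¬ analyticOrderNatAt g z ≠ 0),
        (analyticOrderNatAt g z : ℝ) * Real.log (R / ‖z‖) = 0 := by
      apply sum_eq_zero
      intro z hz
      rw [mem_filter, not_not] at hz
      rw [hz.2, Nat.cast_zero, zero_mul]
    rw [h1, add_zero]
    apply sum_le_sum_of_subset_of_nonneg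
    · intro z hz
      rw [mem_filter] at hz
      rw [hZ]
      exact ⟨hS z hz.1, hz.2⟩
    · intro u hu _
      exact mul_nonneg (Nat.cast_nonneg _) (log_div_nonneg ((hZ u).1 hu).1)
  have hJle := JJ_le hg hR hM hτ hb
  have hl0 : Real.log M₀ ≤ Real.log ‖g 0‖ := Real.log_le_log hM₀ h0
  have e2 : 2 * R / Real.pi * τ = τ * (2 * R / Real.pi) := by ring
  rw [e2]
  linarith

/-- small values at separated points -/
theorem count2 {g : ℂ → ℂ} (hg : Differentiable ℂ g) {R s m M M₀ τ : ℝ} (hR : 0 < R) (hs : 0 < s)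
    (hm : 0 ≤ m) (hM : 1 ≤ M) (hM₀ : 0 < M₀) (hMM : M₀ ≤ M) (hτ : 0 ≤ τ) (h0 : M₀ ≤ ‖g 0‖)
    (hb : ∀ z : ℂ, ‖z‖ ≤ R → ‖g z‖ ≤ M * Real.exp (τ * |z.re|))
    (hmM : 4 * (m * Real.exp (6 * R / s)) ≤ M₀) {S : Finset ℂ}
    (hS : ∀ z ∈ S, ‖z‖ ≤ R) (hsep : ∀ z ∈ S, ∀ w ∈ S, z ≠ w → s ≤ |z.im - w.im|)
    (hgS : ∀ z ∈ S, ‖g z‖ ≤ m) :
    ∑ z ∈ S, Real.log (R / ‖z‖) ≤ 2 * R / Real.pi * τ + (Real.log M - Real.log M₀) + 1 := by
  classical
  have hM0 : 0 < M := by linarith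
  set p : ℝ := m * Real.exp (6 * R / s) with hp
  have hp0 : 0 ≤ p := by positivity
  set h : ℂ → ℂ := fun z => g z - (PP S g).eval z with hh
  have hhd : Differentiable ℂ h := hg.sub (PP S g).differentiable
  have hP : ∀ z : ℂ, ‖z‖ ≤ R → ‖(PP S g).eval z‖ ≤ p := fun z hz => PP_le hR hs hm hS hsep hgS hz
  have hh0 : 3 / 4 * M₀ ≤ ‖h 0‖ := by
    have h1 := hP 0 (by rw [norm_zero]; exact hR.le)
    have h2 := norm_sub_norm_le (g 0) ((PP S g).eval 0)
    rw [hh]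
    simp only
    linarith
  have hhb : ∀ z : ℂ, ‖z‖ ≤ R → ‖h z‖ ≤ 5 / 4 * M * Real.exp (τ * |z.re|) := by
    intro z hz
    have h2 := hb z hz
    have h3 := hP z hz
    have h4 : 1 ≤ Real.exp (τ * |z.re|) := Real.one_le_exp (by positivity)
    have h5 : ‖h z‖ ≤ ‖g z‖ + ‖(PP S g).eval z‖ := norm_sub_le _ _
    nlinarith
  have h1 := zeros2 hhd (M := 5 / 4 * M) (M₀ := 3 / 4 * M₀) hR (by linarith) (by linarith) hτ hh0 hhb hS
  have hne : h 0 ≠ 0 := by
    intro h1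
    rw [h1, norm_zero] at hh0
    linarith
  have hhS : ∀ z ∈ S, h z = 0 := by
    intro z hz
    rw [hh]
    simp only
    rw [PP_node hz, sub_self]
  have hlow : ∑ z ∈ S, Real.log (R / ‖z‖) ≤
      ∑ z ∈ S, (analyticOrderNatAt h z : ℝ) * Real.log (R / ‖z‖) := by
    apply sum_le_sum
    intro z hz
    have h1 : (1 : ℝ) ≤ analyticOrderNatAt h z := by
      exact_mod_cast order_pos h hhd hne (hhS z hz)
    have h2 := log_div_nonneg (hS z hz)
    nlinarith
  have hdiff : Real.log (5 / 4 * M) - Real.log (3 / 4 * M₀) ≤ Real.log M - Real.log M₀ + 1 := by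
    rw [Real.log_mul (by norm_num) hM0.ne', Real.log_mul (by norm_num) hM₀.ne']
    have h3 : Real.log (5 / 4) - Real.log (3 / 4) ≤ 1 := by
      rw [← Real.log_div (by norm_num) (by norm_num)]
      rw [Real.log_le_iff_le_exp (by norm_num)]
      have := Real.exp_one_gt_d9
      norm_num
      linarith
    linarith
  linarith

end Pool.Agent.T2h09.LD
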