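import Mathlib

/-!
Definitions for the density criteria with derivatives. `ι` is the index set of a family of L-functions `L i`;
`T i` is a height, `x i` and `q i` are conductors of `L i` at this height.
-/

set_option autoImplicit false

namespace Pool.Agent.T2h09.LD

/-- `(d/ds - w₁) ⋯ (d/ds - w_k) f` for the list `[w₁, …, w_k]` -/
noncomputable def Op : List ℂ → (ℂ → ℂ) → ℂ → ℂ
  | [], f => f
  | w :: l, f => fun s => deriv (Op l f) s - w * Op l f s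

variable {ι : Type*}

/-- Lists of complex numbers of bounded length, with entries of size `x^(o(1))` and with real parts at least
`-o(log x)`. -/
def Tame (x : ι → ℝ) (w : ι → List ℂ) : Prop :=
  (∃ K : ℕ, ∀ i, (w i).length ≤ K) ∧ ∀ η : ℝ, 0 < η → ∃ X₀ : ℝ, ∀ i, X₀ ≤ x i →
    ∀ a ∈ w i, ‖a‖ ≤ x i ^ η ∧ -(η * Real.log (x i)) ≤ a.re

/-- Entire functions which are at most `x^(κ + o(1))` near the critical line, at bounded distance from `T`. -/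
def SmallP (T x : ι → ℝ) (h : ι → ℂ → ℂ) (κ : ℝ) : Prop :=
  (∀ i, Differentiable ℂ (h i)) ∧ ∀ ε W : ℝ, 0 < ε → ∃ r X₀ : ℝ, 0 < r ∧ ∀ (i : ι) (s : ℂ),
    X₀ ≤ x i → |s.re - 1 / 2| ≤ r → |s.im - T i| ≤ W → ‖h i s‖ ≤ x i ^ (κ + ε)

/-- `log q - 4 log |L (1/2 + iT)| + ε log x` -/
noncomputable def DL (L : ι → ℂ → ℂ) (T x q : ι → ℝ) (i : ι) (ε : ℝ) : ℝ :=
  Real.log (q i) - 4 * Real.log ‖L i (1 / 2 + T i * Complex.I)‖ + ε * Real.log (x i)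

/-- `(d/ds - w₁) ⋯ (d/ds - w_k) L - h` -/
noncomputable def FF (L : ι → ℂ → ℂ) (w : ι → List ℂ) (h : ι → ℂ → ℂ) (i : ι) (s : ℂ) : ℂ :=
  Op (w i) (L i) s - h i s

/-- Many separated small values of `F` in the boxes around the critical line at bounded distance from `T`. -/
def Dense (F : ι → ℂ → ℂ) (T x q : ι → ℝ) (θ κ : ℝ) : Prop := ∀ ε : ℝ, 0 < ε → ∃ η : ℝ, 0 < η ∧
  ∀ W r₀ : ℝ, 0 < r₀ → ∃ r X₀ : ℝ, 0 < r ∧ r ≤ r₀ ∧ ∀ (i : ι) (t : ℝ), X₀ ≤ x i → |t - T i| ≤ W →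
    ∃ S : Finset ℂ,
      (∀ s ∈ S, |s.re - 1 / 2| ≤ r ∧ t ≤ s.im ∧ s.im ≤ t + r ∧ ‖F i s‖ ≤ x i ^ (κ + ε)) ∧
      (∀ s ∈ S, ∀ s' ∈ S, s ≠ s' → η / Real.log (x i) ≤ |s.im - s'.im|) ∧
      r * Real.log (q i) / (2 * Real.pi * θ) ≤ S.card + ε * r * Real.log (x i)

/-- Many zeros of `F` in the boxes around the critical line at bounded distance from `T`. -/
def ZeroDense (F : ι → ℂ → ℂ) (T x q : ι → ℝ) (δ : ℝ) : Prop := ∀ ε : ℝ, 0 < ε →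
  ∀ W r₀ : ℝ, 0 < r₀ → ∃ r X₀ : ℝ, 0 < r ∧ r ≤ r₀ ∧ ∀ (i : ι) (t : ℝ), X₀ ≤ x i → |t - T i| ≤ W →
    ∃ S : Finset ℂ, (∀ s ∈ S, |s.re - 1 / 2| ≤ r ∧ t ≤ s.im ∧ s.im < t + r) ∧
      (1 - δ) * (r * Real.log (q i) / (2 * Real.pi)) ≤
        ∑ s ∈ S, (analyticOrderNatAt (F i) s : ℝ) + ε * r * Real.log (x i)

/-- `|L i (1/2 + it)| = O(x^(κ + ε))` at bounded distance from `T i` -/
def NearExp (L : ι → ℂ → ℂ) (T x : ι → ℝ) (κ : ℝ) : Prop := ∀ ε W : ℝ, 0 < ε → ∃ B : ℝ,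
  ∀ (i : ι) (t : ℝ), |t - T i| ≤ W → ‖L i (1 / 2 + t * Complex.I)‖ ≤ B * x i ^ (κ + ε)

/-- `|L i (1/2 + iT)| = O(X^(κ + ε))`, uniformly in the family -/
def Expo (L : ι → ℂ → ℂ) (X : ι → ℝ → ℝ) (κ : ℝ) : Prop := ∀ ε : ℝ, 0 < ε → ∃ B : ℝ, ∀ (i : ι) (T : ℝ),
  ‖L i (1 / 2 + T * Complex.I)‖ ≤ B * X i T ^ (κ + ε)

end Pool.Agent.T2h09.LD
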