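import Mathlib
import Pool.Agent.T2h09.LD.Def

/-!
Products of first order differential operators with constant coefficients, applied to an entire function:
bounds from above (Cauchy) and from below (integration along a horizontal segment).
-/

set_option autoImplicit false

open Complex Metric Set

set_option maxHeartbeats 4000000

namespace Pool.Agent.T2h09.LD

lemma op_nil (f : ℂ → ℂ) : Op [] f = f := rfl

lemma op_cons (w : ℂ) (l : List ℂ) (f : ℂ → ℂ) (s : ℂ) :
    Op (w :: l) f s = deriv (Op l f) s - w * Op l f s := rfl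

lemma diff_deriv {f : ℂ → ℂ} (hf : Differentiable ℂ f) : Differentiable ℂ (deriv f) := by
  have h := (hf.differentiableOn (s := univ)).deriv isOpen_univ
  exact differentiableOn_univ.1 h

lemma op_diff {f : ℂ → ℂ} (hf : Differentiable ℂ f) : ∀ l : List ℂ, Differentiable ℂ (Op l f)
  | [] => hf
  | w :: l => (diff_deriv (op_diff hf l)).sub ((op_diff hf l).const_mul w)

lemma op_replicate (f : ℂ → ℂ) (k : ℕ) : Op (List.replicate k 0) f = iteratedDeriv k f := by
  induction k with
  | zero => rw [iteratedDeriv_zero]; rfl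
  | succ k ih =>
    rw [List.replicate_succ, iteratedDeriv_succ]
    funext s
    rw [op_cons, ih, zero_mul, sub_zero]

lemma op_shift (f : ℂ → ℂ) (a : ℂ) : ∀ (l : List ℂ) (z : ℂ),
    Op l (fun z => f (a + z)) z = Op l f (a + z)
  | [], _ => rfl
  | w :: l, z => by
    rw [op_cons, op_cons]
    have h : Op l (fun z => f (a + z)) = fun z => Op l f (a + z) := funext (op_shift f a l)
    rw [h, deriv_comp_const_add]

lemma op_smul (f : ℂ → ℂ) (c : ℂ) : ∀ (l : List ℂ) (z : ℂ),
    Op l (fun z => c * f z) z = c * Op l f z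
  | [], _ => rfl
  | w :: l, z => by
    rw [op_cons, op_cons]
    have h : Op l (fun z => c * f z) = fun z => c * Op l f z := funext (op_smul f c l)
    rw [h, deriv_const_mul_field]
    ring

/-- Cauchy's bound -/
lemma op_le {f : ℂ → ℂ} (hf : Differentiable ℂ f) {A d q : ℝ} (hd : 0 < d) (hA : 0 ≤ A) :
    ∀ (l : List ℂ) (z : ℂ), (∀ w ∈ l, ‖w‖ ≤ q) → (∀ z' : ℂ, ‖z' - z‖ ≤ l.length * d → ‖f z'‖ ≤ A) →
      ‖Op l f z‖ ≤ A * (q + 1 / d) ^ l.length := by
  intro l
  induction l with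
  | nil =>
    intro z _ h
    rw [op_nil, List.length_nil, pow_zero, mul_one]
    exact h z (by simp)
  | cons w l ih =>
    intro z hw h
    rw [op_cons]
    have hq : ‖w‖ ≤ q := hw w (by simp)
    have hq0 : 0 ≤ q := (norm_nonneg _).trans hq
    have hlen : ((w :: l).length : ℝ) = l.length + 1 := by simp
    rw [hlen] at h
    have hin : ∀ z' : ℂ, ‖z' - z‖ ≤ d → ‖Op l f z'‖ ≤ A * (q + 1 / d) ^ l.length := by
      intro z' hz'
      refine ih z' (fun w' hw' => hw w' (by simp [hw'])) fun z'' hz'' => h z'' ?_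
      have h1 := norm_add_le (z'' - z') (z' - z)
      rw [sub_add_sub_cancel] at h1
      linarith
    set C : ℝ := A * (q + 1 / d) ^ l.length with hC
    have hd1 : ‖deriv (Op l f) z‖ ≤ C / d := by
      apply Complex.norm_deriv_le_of_forall_mem_sphere_norm_le hd
        (op_diff hf l).diffContOnCl
      intro z' hz'
      apply hin
      rw [mem_sphere_iff_norm] at hz'
      exact hz'.le
    have hC0 : 0 ≤ C := by positivity
    have h2 : ‖w * Op l f z‖ ≤ q * C := by
      rw [norm_mul]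
      exact mul_le_mul hq (hin z (by simp [hd.le])) (norm_nonneg _) hq0
    calc ‖deriv (Op l f) z - w * Op l f z‖ ≤ ‖deriv (Op l f) z‖ + ‖w * Op l f z‖ := norm_sub_le _ _
      _ ≤ C / d + q * C := add_le_add hd1 h2
      _ = A * (q + 1 / d) ^ (l.length + 1) := by rw [hC, pow_succ]; ring

/-- one factor, along a segment of the real axis -/
lemma ode_step {h : ℂ → ℂ} (hh : Differentiable ℂ h) {w : ℂ} {ω b m : ℝ} (hω : 0 ≤ ω)
    (hw : -ω ≤ w.re) (hb : b ≤ 1)
    (hm : ∀ t : ℝ, 0 ≤ t → t ≤ b → ‖deriv h t - w * h t‖ ≤ m) {x : ℝ} (hx : 0 ≤ x) (hxb : x ≤ b) :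
    ‖h x‖ ≤ Real.exp (ω * b) * (‖h b‖ + m) := by
  have hm0 : 0 ≤ m := (norm_nonneg _).trans (hm x hx hxb)
  set φ : ℝ → ℂ := fun t => Complex.exp (-w * (t - x)) * h t with hφ
  have hexp : ∀ t : ℝ, x ≤ t → t ≤ b → ‖Complex.exp (-w * (t - x))‖ ≤ Real.exp (ω * b) := by
    intro t h1 h2
    rw [Complex.norm_exp]
    apply Real.exp_le_exp.2
    have e : (-w * ((t : ℂ) - x)).re = -w.re * (t - x) := by
      simp
    rw [e]
    calc -w.re * (t - x) ≤ ω * (t - x) := mul_le_mul_of_nonneg_right (by linarith) (by linarith)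
      _ ≤ ω * b := mul_le_mul_of_nonneg_left (by linarith) hω
  have hder : ∀ t : ℝ, HasDerivAt φ (Complex.exp (-w * (t - x)) * (deriv h t - w * h t)) t := by
    intro t
    have h1 : HasDerivAt (fun z : ℂ => Complex.exp (-w * (z - x)) * h z)
        (Complex.exp (-w * ((t : ℂ) - x)) * (-w * 1) * h t +
          Complex.exp (-w * ((t : ℂ) - x)) * deriv h t) (t : ℂ) := by
      apply HasDerivAt.mul
      · apply HasDerivAt.cexp
        exact ((hasDerivAt_id (t : ℂ)).sub_const (x : ℂ)).const_mul (-w)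
      · exact (hh t).hasDerivAt
    have h2 := h1.comp_ofReal
    convert h2 using 1
    ring
  have hmv := norm_image_sub_le_of_norm_deriv_le_segment' (f := φ)
    (f' := fun t => Complex.exp (-w * (t - x)) * (deriv h t - w * h t))
    (C := Real.exp (ω * b) * m) (a := x) (b := b) (fun t _ => (hder t).hasDerivWithinAt)
    (fun t ht => by
      rw [norm_mul]
      exact mul_le_mul (hexp t ht.1 ht.2.le) (hm t (by linarith [ht.1]) ht.2.le) (norm_nonneg _)
        (Real.exp_pos _).le) b ⟨hxb, le_rfl⟩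
  have h0 : φ x = h x := by
    simp [hφ]
  have h1 : ‖φ b‖ ≤ Real.exp (ω * b) * ‖h b‖ := by
    rw [hφ]
    simp only
    rw [norm_mul]
    exact mul_le_mul_of_nonneg_right (hexp b hxb le_rfl) (norm_nonneg _)
  have h2 : ‖φ x‖ ≤ ‖φ b‖ + ‖φ b - φ x‖ := by
    have h3 := norm_sub_norm_le (φ x) (φ b)
    rw [norm_sub_rev] at h3
    linarith
  have h3 : Real.exp (ω * b) * m * (b - x) ≤ Real.exp (ω * b) * m * 1 :=
    mul_le_mul_of_nonneg_left (by linarith) (by positivity)
  rw [h0] at h2 hmv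
  calc ‖h x‖ ≤ Real.exp (ω * b) * ‖h b‖ + Real.exp (ω * b) * m * 1 := by linarith
    _ = _ := by ring

/-- all factors -/
lemma small_of_op {f : ℂ → ℂ} (hf : Differentiable ℂ f) {ω b N q : ℝ} (hω : 0 ≤ ω) (hb0 : 0 ≤ b) (hb : b ≤ 1)
    (K : ℕ) (hN : ∀ l : List ℂ, l.length ≤ K → (∀ w ∈ l, ‖w‖ ≤ q) → ‖Op l f b‖ ≤ N) :
    ∀ l : List ℂ, l.length ≤ K → (∀ w ∈ l, ‖w‖ ≤ q ∧ -ω ≤ w.re) → ∀ m : ℝ,
      (∀ t : ℝ, 0 ≤ t → t ≤ b → ‖Op l f t‖ ≤ m) → ∀ t : ℝ, 0 ≤ t → t ≤ b →
        ‖f t‖ ≤ Real.exp (l.length * (ω * b)) * (l.length * N + m) := by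
  intro l
  induction l with
  | nil =>
    intro _ _ m hm t h0 h1
    have := hm t h0 h1
    simpa [op_nil] using this
  | cons w l ih =>
    intro hl hw m hm t h0 h1
    have hl' : l.length + 1 ≤ K := by simpa using hl
    have hw' : ∀ w' ∈ l, ‖w'‖ ≤ q ∧ -ω ≤ w'.re := fun w' h => hw w' (by simp [h])
    have hNb : ‖Op l f b‖ ≤ N := hN l (by omega) fun w' h => (hw' w' h).1
    have hN0 : 0 ≤ N := (norm_nonneg _).trans hNb
    have hm0 : 0 ≤ m := (norm_nonneg _).trans (hm t h0 h1)
    have hstep : ∀ x : ℝ, 0 ≤ x → x ≤ b → ‖Op l f x‖ ≤ Real.exp (ω * b) * (N + m) := by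
      intro x hx hxb
      refine (ode_step (op_diff hf l) hω (hw w (by simp)).2 hb (fun t h0 h1 => hm t h0 h1) hx hxb).trans ?_
      exact mul_le_mul_of_nonneg_left (by linarith) (Real.exp_pos _).le
    have h3 := ih (by omega) hw' _ hstep t h0 h1
    refine h3.trans ?_
    have hωb : 0 ≤ ω * b := by positivity
    have he : 1 ≤ Real.exp (ω * b) := Real.one_le_exp hωb
    have h4 : (l.length : ℝ) * N ≤ Real.exp (ω * b) * (l.length * N) :=
      le_mul_of_one_le_left (by positivity) he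
    have e : ((w :: l).length : ℝ) = l.length + 1 := by simp
    rw [e, add_mul, one_mul, Real.exp_add]
    calc Real.exp (l.length * (ω * b)) * (l.length * N + Real.exp (ω * b) * (N + m))
        ≤ Real.exp (l.length * (ω * b)) * (Real.exp (ω * b) * (l.length * N) +
            Real.exp (ω * b) * (N + m)) :=
          mul_le_mul_of_nonneg_left (by linarith) (Real.exp_pos _).le
      _ = _ := by ring

end Pool.Agent.T2h09.LD
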