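import Mathlib
import Pool.Agent.T2h09.LD.Op
import Pool.Agent.T2h09.LD.Jen

/-!
A function with the growth of an `L`-function near a weighted maximum: bounds for `(d/dz - w₁) ⋯ (d/dz - w_k) f`
in both directions, zeros and small values.
-/

set_option autoImplicit false

open Complex Metric Set
open Pool.Agent.TH804.DL

set_option maxHeartbeats 4000000

namespace Pool.Agent.T2h09.LD

/-- the exponent -/
noncomputable def ph (α : ℂ) (β : ℝ) (z : ℂ) : ℂ := α * z + β * z ^ 2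

structure Pk (f : ℂ → ℂ) (α : ℂ) (β M τ Λ A κ : ℝ) : Prop where
  diff : Differentiable ℂ f
  M1 : 1 ≤ M
  f0 : ‖f 0‖ = M
  bd : ∀ z : ℂ, ‖z‖ ≤ 1 / 2 → ‖f z‖ * Real.exp (ph α β z).re ≤ M * Real.exp (τ * |z.re|)
  β0 : 0 ≤ β
  αA : ‖α‖ + 2 * β ≤ A * Λ
  τ0 : 0 ≤ τ
  τA : τ ≤ A * Λ
  dec : τ + κ * Λ ≤ α.re
  Λ1 : 1 ≤ Λ
  A0 : 0 ≤ A
  κ0 : 0 ≤ κ

variable {f : ℂ → ℂ} {α : ℂ} {β M τ Λ A κ : ℝ}

lemma ph_sub {z z' : ℂ} {d : ℝ} (H : Pk f α β M τ Λ A κ) (hz : ‖z‖ ≤ 1 / 2)
    (hz' : ‖z'‖ ≤ 1 / 2) (h : ‖z' - z‖ ≤ d) : (ph α β z).re ≤ (ph α β z').re + d * (A * Λ) := by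
  have e : ph α β z' - ph α β z = (z' - z) * (α + β * (z + z')) := by unfold ph; ring
  have h1 : ‖ph α β z' - ph α β z‖ ≤ d * (A * Λ) := by
    rw [e, norm_mul]
    apply mul_le_mul h _ (norm_nonneg _) ((norm_nonneg _).trans h)
    refine (norm_add_le _ _).trans ?_
    rw [norm_mul, Complex.norm_real, Real.norm_eq_abs, abs_of_nonneg H.β0]
    have h2 : ‖z + z'‖ ≤ 1 := (norm_add_le _ _).trans (by linarith)
    have h3 : β * ‖z + z'‖ ≤ β * 1 := mul_le_mul_of_nonneg_left h2 H.β0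
    linarith [H.αA, H.β0]
  have h2 := (abs_le.1 ((Complex.abs_re_le_norm _).trans h1)).1
  rw [Complex.sub_re] at h2
  linarith

lemma ph_le {z : ℂ} {d : ℝ} (H : Pk f α β M τ Λ A κ) (hd : d ≤ 1 / 2) (h : ‖z‖ ≤ d) :
    (ph α β z).re ≤ d * (A * Λ) := by
  have hd0 : 0 ≤ d := (norm_nonneg _).trans h
  have h1 := ph_sub (z := z) (z' := 0) (d := d) H (h.trans hd) (by simp) (by simpa using h)
  have e : ph α β 0 = 0 := by unfold ph; simp
  rw [e, Complex.zero_re, zero_add] at h1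
  exact h1

lemma op_up (H : Pk f α β M τ Λ A κ) {K : ℕ} (hK : 4 * (K : ℝ) ≤ Λ) {q : ℝ} (hq : 0 ≤ q) {l : List ℂ}
    (hl : l.length ≤ K) (hw : ∀ w ∈ l, ‖w‖ ≤ q) {z : ℂ} (hz : ‖z‖ ≤ 1 / 4) :
    ‖Op l f z‖ * Real.exp (ph α β z).re ≤
      M * Real.exp (τ * |z.re|) * (Real.exp (2 * A * K) * (q + Λ) ^ K) := by
  have hΛ1 := H.Λ1
  have hΛ0 : 0 < Λ := by linarith
  have hM0 : 0 < M := by linarith [H.M1]
  have hl' : (l.length : ℝ) ≤ K := by exact_mod_cast hl
  set B : ℝ := M * Real.exp (τ * |z.re|) * Real.exp (2 * A * K) * Real.exp (-(ph α β z).re) with hB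
  have h1 : ‖Op l f z‖ ≤ B * (q + 1 / (1 / Λ)) ^ l.length := by
    apply op_le H.diff (d := 1 / Λ) (by positivity) (by positivity) l z hw
    intro z' hz'
    have h2 : (l.length : ℝ) * (1 / Λ) ≤ K / Λ := by
      rw [mul_one_div]
      exact div_le_div_of_nonneg_right hl' hΛ0.le
    have h3 : (K : ℝ) / Λ ≤ 1 / 4 := by
      rw [div_le_div_iff₀ hΛ0 (by norm_num)]; linarith
    have h4 : ‖z' - z‖ ≤ K / Λ := hz'.trans h2
    have h5 : ‖z'‖ ≤ 1 / 2 := by
      have := norm_add_le (z' - z) z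
      rw [sub_add_cancel] at this
      linarith
    have h6 := H.bd z' h5
    have h7 := ph_sub H (by linarith : ‖z‖ ≤ 1 / 2) h5 h4
    have e1 : (K : ℝ) / Λ * (A * Λ) = A * K := by field_simp
    rw [e1] at h7
    have h8 : τ * |z'.re| ≤ τ * |z.re| + A * K := by
      have h9 : |z'.re| ≤ |z.re| + K / Λ := by
        have h10 := (Complex.abs_re_le_norm (z' - z)).trans h4
        rw [Complex.sub_re] at h10
        have := abs_add_le (z'.re - z.re) z.re
        rw [sub_add_cancel] at this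
        linarith
      have h10 : τ * |z'.re| ≤ τ * (|z.re| + K / Λ) := mul_le_mul_of_nonneg_left h9 H.τ0
      have h11 : τ * (K / Λ) ≤ A * Λ * (K / Λ) := mul_le_mul_of_nonneg_right H.τA (by positivity)
      have e2 : A * Λ * (K / Λ) = A * K := by field_simp
      linarith [mul_add τ |z.re| (K / Λ)]
    calc ‖f z'‖ = ‖f z'‖ * Real.exp (ph α β z').re * Real.exp (-(ph α β z').re) := by
          rw [mul_assoc, ← Real.exp_add]; simp
      _ ≤ M * Real.exp (τ * |z'.re|) * Real.exp (-(ph α β z').re) :=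
          mul_le_mul_of_nonneg_right h6 (Real.exp_pos _).le
      _ = M * Real.exp (τ * |z'.re| + -(ph α β z').re) := by rw [mul_assoc, ← Real.exp_add]
      _ ≤ M * Real.exp (τ * |z.re| + 2 * A * K + -(ph α β z).re) := by
          apply mul_le_mul_of_nonneg_left _ hM0.le
          apply Real.exp_le_exp.2
          linarith
      _ = B := by rw [hB, Real.exp_add, Real.exp_add]; ring
  rw [one_div_one_div] at h1
  have h2 : (q + Λ) ^ l.length ≤ (q + Λ) ^ K := pow_le_pow_right₀ (by linarith) hl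
  calc ‖Op l f z‖ * Real.exp (ph α β z).re
      ≤ B * (q + Λ) ^ l.length * Real.exp (ph α β z).re :=
        mul_le_mul_of_nonneg_right h1 (Real.exp_pos _).le
    _ ≤ B * (q + Λ) ^ K * Real.exp (ph α β z).re := by
        apply mul_le_mul_of_nonneg_right _ (Real.exp_pos _).le
        exact mul_le_mul_of_nonneg_left h2 (by positivity)
    _ = M * Real.exp (τ * |z.re|) * (Real.exp (2 * A * K) * (q + Λ) ^ K) *
          (Real.exp (-(ph α β z).re) * Real.exp (ph α β z).re) := by rw [hB]; ring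
    _ = _ := by rw [← Real.exp_add]; simp

/-- the lower bound -/
lemma op_low (H : Pk f α β M τ Λ A κ) {K : ℕ} (hK : 4 * (K : ℝ) ≤ Λ) {q ω ρ : ℝ} (hq : 0 ≤ q) (hω : 0 ≤ ω)
    (hρ0 : 0 ≤ ρ) (hρ : ρ ≤ 1 / 4) {l : List ℂ} (hl : l.length ≤ K) (hw : ∀ w ∈ l, ‖w‖ ≤ q ∧ -ω ≤ w.re)
    (hc : Real.exp (K * (ω * ρ)) * (K * (Real.exp (-(κ * Λ * ρ)) * (Real.exp (2 * A * K) * (q + Λ) ^ K))) ≤
      1 / 2) :
    ∃ t : ℝ, 0 ≤ t ∧ t ≤ ρ ∧ M / 4 * Real.exp (-(K * (ω * ρ))) ≤ ‖Op l f t‖ := by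
  by_contra hcon
  push Not at hcon
  have hΛ0 : 0 < Λ := by linarith [H.Λ1]
  have hM0 : 0 < M := by linarith [H.M1]
  set E : ℝ := Real.exp (2 * A * K) * (q + Λ) ^ K with hE
  have hE0 : 0 ≤ E := by positivity
  set N : ℝ := M * (Real.exp (-(κ * Λ * ρ)) * E) with hN
  have hNb : ∀ l : List ℂ, l.length ≤ K → (∀ w ∈ l, ‖w‖ ≤ q) → ‖Op l f ρ‖ ≤ N := by
    intro l hl hw
    have hnρ : ‖(ρ : ℂ)‖ = ρ := by rw [Complex.norm_real, Real.norm_eq_abs, abs_of_nonneg hρ0]
    have h1 := op_up H hK hq hl hw (z := ρ) (by rw [hnρ]; exact hρ)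
    rw [Complex.ofReal_re, abs_of_nonneg hρ0] at h1
    have h2 : (ph α β ρ).re = α.re * ρ + β * ρ ^ 2 := by
      unfold ph
      rw [Complex.add_re, Complex.re_mul_ofReal, ← Complex.ofReal_pow, ← Complex.ofReal_mul,
        Complex.ofReal_re]
    have h3 : (τ + κ * Λ) * ρ ≤ (ph α β ρ).re := by
      rw [h2]
      have h4 := mul_le_mul_of_nonneg_right H.dec hρ0
      have h5 : 0 ≤ β * ρ ^ 2 := mul_nonneg H.β0 (sq_nonneg _)
      linarith
    calc ‖Op l f ρ‖ = ‖Op l f ρ‖ * Real.exp (ph α β ρ).re * Real.exp (-(ph α β ρ).re) := by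
          rw [mul_assoc, ← Real.exp_add]; simp
      _ ≤ M * Real.exp (τ * ρ) * E * Real.exp (-(ph α β ρ).re) :=
          mul_le_mul_of_nonneg_right h1 (Real.exp_pos _).le
      _ = M * E * Real.exp (τ * ρ + -(ph α β ρ).re) := by rw [Real.exp_add]; ring
      _ ≤ M * E * Real.exp (-(κ * Λ * ρ)) := by
          apply mul_le_mul_of_nonneg_left _ (by positivity)
          apply Real.exp_le_exp.2
          linarith
      _ = N := by rw [hN]; ring
  have h1 := small_of_op H.diff hω hρ0 (by linarith) K hNb l hl hw _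
    (fun t h0 h1 => (hcon t h0 h1).le) 0 le_rfl hρ0
  rw [Complex.ofReal_zero, H.f0] at h1
  have hl' : (l.length : ℝ) ≤ K := by exact_mod_cast hl
  have hωρ : 0 ≤ ω * ρ := by positivity
  have hN0 : 0 ≤ N := by positivity
  have h2 : Real.exp (l.length * (ω * ρ)) * (l.length * N + M / 4 * Real.exp (-(K * (ω * ρ)))) ≤
      Real.exp (K * (ω * ρ)) * (K * N + M / 4 * Real.exp (-(K * (ω * ρ)))) := by
    apply mul_le_mul
    · exact Real.exp_le_exp.2 (mul_le_mul_of_nonneg_right hl' hωρ)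
    · have := mul_le_mul_of_nonneg_right hl' hN0
      linarith
    · positivity
    · positivity
  have h3 : Real.exp (K * (ω * ρ)) * (K * N + M / 4 * Real.exp (-(K * (ω * ρ)))) =
      M * (Real.exp (K * (ω * ρ)) * (K * (Real.exp (-(κ * Λ * ρ)) * E))) +
        M / 4 * (Real.exp (K * (ω * ρ)) * Real.exp (-(K * (ω * ρ)))) := by rw [hN]; ring
  rw [← Real.exp_add, add_neg_cancel, Real.exp_zero, mul_one] at h3
  have h4 := mul_le_mul_of_nonneg_left hc hM0.le
  linarith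

/-- **the local theorem**: zeros and small values of `Op l f - h` -/
theorem Pk.main (H : Pk f α β M τ Λ A κ) {K : ℕ} (hK : 4 * (K : ℝ) ≤ Λ) {q ω ρ R e₁ : ℝ} (hq : 0 ≤ q)
    (hω : 0 ≤ ω) (hρ0 : 0 ≤ ρ) (hR : 0 < R) (hRρ : R + ρ ≤ 1 / 4) (hRe : (R + ρ) * A ≤ e₁)
    {l : List ℂ} (hl : l.length ≤ K) (hw : ∀ w ∈ l, ‖w‖ ≤ q ∧ -ω ≤ w.re)
    (hc : Real.exp (K * (ω * ρ)) * (K * (Real.exp (-(κ * Λ * ρ)) * (Real.exp (2 * A * K) * (q + Λ) ^ K))) ≤
      1 / 2)
    {h : ℂ → ℂ} (hh : Differentiable ℂ h) (hhb : ∀ z : ℂ, ‖z‖ ≤ R + ρ → ‖h z‖ ≤ M * Real.exp (-(e₁ * Λ)))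
    (hd : 8 * Real.exp (-(e₁ * Λ)) ≤ Real.exp (-(K * (ω * ρ)))) :
    ∃ x : ℝ, 0 ≤ x ∧ x ≤ ρ ∧ M / 8 * Real.exp (-(K * (ω * ρ))) ≤ ‖Op l f x - h x‖ ∧
      (∀ S : Finset ℂ, (∀ z ∈ S, ‖z - x‖ ≤ R) →
        ∑ z ∈ S, (analyticOrderNatAt (fun z => Op l f z - h z) z : ℝ) * Real.log (R / ‖z - x‖) ≤
          2 * R / Real.pi * τ + (τ * ρ + Real.log 16 + 2 * A * K + K * Real.log (q + Λ) + K * (ω * ρ))) ∧
      ∀ (s e₂ : ℝ) (S : Finset ℂ), 0 < s →
        6 * R / s + (R + ρ) * (A * Λ) + K * (ω * ρ) + 4 ≤ e₂ * Λ → (∀ z ∈ S, ‖z - x‖ ≤ R) →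
        (∀ z ∈ S, ‖Op l f z - h z‖ ≤ M * Real.exp (-(e₂ * Λ))) →
        (∀ z ∈ S, ∀ w ∈ S, z ≠ w → s ≤ |z.im - w.im|) →
        ∑ z ∈ S, Real.log (R / ‖z - x‖) ≤
          2 * R / Real.pi * τ + (τ * ρ + Real.log 16 + 2 * A * K + K * Real.log (q + Λ) +
            K * (ω * ρ)) + 1 := by
  have hΛ0 : 0 < Λ := by linarith [H.Λ1]
  have hM0 : 0 < M := by linarith [H.M1]
  have hM1 := H.M1
  set E : ℝ := Real.exp (2 * A * K) * (q + Λ) ^ K with hE
  have hqΛ : 1 ≤ q + Λ := by linarith [H.Λ1]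
  have hE1 : 1 ≤ E := by
    have h1 : 1 ≤ Real.exp (2 * A * K) := Real.one_le_exp (by have := H.A0; positivity)
    have h2 : 1 ≤ (q + Λ) ^ K := one_le_pow₀ hqΛ
    nlinarith
  obtain ⟨x, hx0, hx1, hlow⟩ := op_low H hK hq hω hρ0 (by linarith) hl hw hc
  set u : ℝ := K * (ω * ρ) with hu
  have hu0 : 0 ≤ u := by positivity
  set F : ℂ → ℂ := fun z => Op l f z - h z with hF
  have hFd : Differentiable ℂ F := (op_diff H.diff l).sub hh
  have hnx : ‖(x : ℂ)‖ = x := by rw [Complex.norm_real, Real.norm_eq_abs, abs_of_nonneg hx0]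
  have hFx : M / 8 * Real.exp (-u) ≤ ‖F x‖ := by
    have h1 := hhb x (by rw [hnx]; linarith)
    have h2 := norm_sub_norm_le (Op l f x) (h x)
    have h3 : M * Real.exp (-(e₁ * Λ)) ≤ M / 8 * Real.exp (-u) := by
      calc M * Real.exp (-(e₁ * Λ)) = M / 8 * (8 * Real.exp (-(e₁ * Λ))) := by ring
        _ ≤ _ := mul_le_mul_of_nonneg_left hd (by positivity)
    rw [hF]
    simp only
    linarith
  set P : ℂ → ℂ := fun z => Complex.exp (ph α β z) with hP
  have hPd : Differentiable ℂ P := by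
    rw [hP]; unfold ph; fun_prop
  set Φ : ℂ → ℂ := fun z => F (x + z) * P (x + z) with hΦ
  have hΦd : Differentiable ℂ Φ := (hFd.comp (by fun_prop)).mul (hPd.comp (by fun_prop))
  have hPn : ∀ z, ‖P z‖ = Real.exp (ph α β z).re := fun z => by rw [hP]; exact Complex.norm_exp _
  have hnear : ∀ z : ℂ, ‖z‖ ≤ R → ‖(x : ℂ) + z‖ ≤ R + ρ := by
    intro z hz
    have := norm_add_le (x : ℂ) z
    rw [hnx] at this
    linarith
  have hΦ0 : M / 8 * Real.exp (-u) ≤ ‖Φ 0‖ := by
    rw [hΦ]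
    simp only [add_zero]
    rw [norm_mul, hPn]
    have h1 : 1 ≤ Real.exp (ph α β x).re := by
      apply Real.one_le_exp
      unfold ph
      rw [Complex.add_re, Complex.re_mul_ofReal, ← Complex.ofReal_pow, ← Complex.ofReal_mul,
        Complex.ofReal_re]
      have h2 : 0 ≤ α.re := by
        have h3 : 0 ≤ κ * Λ := mul_nonneg H.κ0 hΛ0.le
        linarith [H.dec, H.τ0]
      have h4 := H.β0
      positivity
    calc M / 8 * Real.exp (-u) ≤ ‖F x‖ * 1 := by rw [mul_one]; exact hFx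
      _ ≤ _ := mul_le_mul_of_nonneg_left h1 (norm_nonneg _)
  have hΦb : ∀ z : ℂ, ‖z‖ ≤ R →
      ‖Φ z‖ ≤ 2 * M * E * Real.exp (τ * ρ) * Real.exp (τ * |z.re|) := by
    intro z hz
    have hz1 := hnear z hz
    have h1 := op_up H hK hq hl (fun w hw' => (hw w hw').1) (z := x + z) (by linarith)
    have h2 := hhb _ hz1
    have h3 := ph_le H (by linarith) hz1
    have h4 : τ * |((x : ℂ) + z).re| ≤ τ * ρ + τ * |z.re| := by
      rw [Complex.add_re, Complex.ofReal_re, ← mul_add]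
      apply mul_le_mul_of_nonneg_left _ H.τ0
      have := abs_add_le x z.re
      rw [abs_of_nonneg hx0] at this
      linarith
    have h5 : ‖h (x + z)‖ * Real.exp (ph α β (x + z)).re ≤ M := by
      have h6 : (R + ρ) * (A * Λ) ≤ e₁ * Λ := by
        calc (R + ρ) * (A * Λ) = (R + ρ) * A * Λ := by ring
          _ ≤ _ := mul_le_mul_of_nonneg_right hRe hΛ0.le
      calc ‖h (x + z)‖ * Real.exp (ph α β (x + z)).re
          ≤ M * Real.exp (-(e₁ * Λ)) * Real.exp (e₁ * Λ) :=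
            mul_le_mul h2 (Real.exp_le_exp.2 (h3.trans h6)) (Real.exp_pos _).le (by positivity)
        _ = M := by rw [mul_assoc, ← Real.exp_add]; simp
    have hτρ : 0 ≤ τ * ρ := mul_nonneg H.τ0 hρ0
    have hτz : 0 ≤ τ * |z.re| := mul_nonneg H.τ0 (abs_nonneg _)
    have h6 : Real.exp (τ * |((x : ℂ) + z).re|) ≤ Real.exp (τ * ρ) * Real.exp (τ * |z.re|) := by
      rw [← Real.exp_add]; exact Real.exp_le_exp.2 h4
    have h7 : 1 ≤ Real.exp (τ * ρ) * Real.exp (τ * |z.re|) := by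
      rw [← Real.exp_add]; exact Real.one_le_exp (by linarith)
    have h8 : ‖Φ z‖ ≤ ‖Op l f (x + z)‖ * Real.exp (ph α β (x + z)).re +
        ‖h (x + z)‖ * Real.exp (ph α β (x + z)).re := by
      rw [hΦ]
      simp only
      rw [norm_mul, hPn, ← add_mul]
      apply mul_le_mul_of_nonneg_right _ (Real.exp_pos _).le
      exact norm_sub_le _ _
    have h9 : M * Real.exp (τ * |((x : ℂ) + z).re|) * E ≤
        M * E * (Real.exp (τ * ρ) * Real.exp (τ * |z.re|)) := by
      calc M * Real.exp (τ * |((x : ℂ) + z).re|) * E = M * E * Real.exp (τ * |((x : ℂ) + z).re|) := by ring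
        _ ≤ _ := mul_le_mul_of_nonneg_left h6 (by positivity)
    have h10 : M ≤ M * E * (Real.exp (τ * ρ) * Real.exp (τ * |z.re|)) := by
      have h11 : 1 ≤ E * (Real.exp (τ * ρ) * Real.exp (τ * |z.re|)) :=
        one_le_mul_of_one_le_of_one_le hE1 h7
      calc M = M * 1 := by ring
        _ ≤ M * (E * (Real.exp (τ * ρ) * Real.exp (τ * |z.re|))) := mul_le_mul_of_nonneg_left h11 hM0.le
        _ = _ := by ring
    calc ‖Φ z‖ ≤ M * E * (Real.exp (τ * ρ) * Real.exp (τ * |z.re|)) +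
          M * E * (Real.exp (τ * ρ) * Real.exp (τ * |z.re|)) := by linarith
      _ = _ := by ring
  have hbig : 1 ≤ 2 * M * E * Real.exp (τ * ρ) := by
    have h1 : 1 ≤ Real.exp (τ * ρ) := Real.one_le_exp (mul_nonneg H.τ0 hρ0)
    have h2 : 1 ≤ M * E := one_le_mul_of_one_le_of_one_le hM1 hE1
    have h3 : 1 ≤ M * E * Real.exp (τ * ρ) := one_le_mul_of_one_le_of_one_le h2 h1
    linarith
  have hsm : M / 8 * Real.exp (-u) ≤ 2 * M * E * Real.exp (τ * ρ) := by
    have h1 : 1 ≤ Real.exp (τ * ρ) := Real.one_le_exp (mul_nonneg H.τ0 hρ0)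
    have h2 : 1 ≤ E * Real.exp (τ * ρ) := one_le_mul_of_one_le_of_one_le hE1 h1
    have h3 : Real.exp (-u) ≤ 1 := Real.exp_le_one_iff.2 (by linarith)
    calc M / 8 * Real.exp (-u) ≤ M / 8 * 1 := mul_le_mul_of_nonneg_left h3 (by positivity)
      _ ≤ 2 * M * 1 := by linarith
      _ ≤ 2 * M * (E * Real.exp (τ * ρ)) := mul_le_mul_of_nonneg_left h2 (by positivity)
      _ = _ := by ring
  have hlog : Real.log (2 * M * E * Real.exp (τ * ρ)) - Real.log (M / 8 * Real.exp (-u)) =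
      τ * ρ + Real.log 16 + 2 * A * K + K * Real.log (q + Λ) + u := by
    have hE' : Real.log E = 2 * A * K + K * Real.log (q + Λ) := by
      rw [hE, Real.log_mul (Real.exp_pos _).ne' (by positivity), Real.log_exp, Real.log_pow]
    have h16 : Real.log 16 = Real.log 2 + Real.log 8 := by
      rw [← Real.log_mul (by norm_num) (by norm_num)]; norm_num
    rw [Real.log_mul (by positivity) (Real.exp_pos _).ne', Real.log_mul (by positivity) (by positivity),
      Real.log_mul (by norm_num) hM0.ne', Real.log_exp, Real.log_mul (by positivity) (Real.exp_pos _).ne',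
      Real.log_div hM0.ne' (by norm_num), Real.log_exp, hE', h16]
    ring
  refine ⟨x, hx0, hx1, hFx, ?_, ?_⟩
  · intro S hS
    have h1 := zeros2 hΦd hR hbig (by positivity) H.τ0 hΦ0 hΦb
      (S := S.image (fun z => z - (x : ℂ))) (by
        intro w hw
        obtain ⟨z, hz, rfl⟩ := Finset.mem_image.1 hw
        exact hS z hz)
    rw [Finset.sum_image (fun z _ w _ h => sub_left_injective h), hlog] at h1
    refine le_trans (le_of_eq ?_) h1
    refine Finset.sum_congr rfl fun z _ => ?_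
    congr 2
    -- orders
    have e2 : analyticOrderNatAt Φ (z - x) = analyticOrderNatAt (fun z => F z * P z) z := by
      have h3 : AnalyticAt ℂ (fun z : ℂ => (x : ℂ) + z) (z - x) := by fun_prop
      have h4 : deriv (fun z : ℂ => (x : ℂ) + z) (z - x) ≠ 0 := by
        rw [deriv_const_add, deriv_id'']
        exact one_ne_zero
      have h5 := analyticOrderAt_comp_of_deriv_ne_zero (f := fun z => F z * P z) h3 h4
      have e : (x : ℂ) + (z - x) = z := by ring
      simp only [e] at h5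
      unfold analyticOrderNatAt
      rw [← h5]
      rfl
    have e3 : analyticOrderNatAt (fun z => F z * P z) z = analyticOrderNatAt F z := by
      have h3 : analyticOrderAt P z = 0 :=
        (hPd.analyticAt z).analyticOrderAt_eq_zero.2 (by rw [hP]; exact Complex.exp_ne_zero _)
      have h4 := analyticOrderAt_mul (hFd.analyticAt z) (hPd.analyticAt z)
      rw [h3, add_zero] at h4
      unfold analyticOrderNatAt
      rw [← h4]
      rfl
    rw [e2, e3]
  · intro s e₂ S hs hcond hS hSF hsep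
    set m : ℝ := M * Real.exp (-(e₂ * Λ)) * Real.exp ((R + ρ) * (A * Λ)) with hm
    have h1 := count2 hΦd (s := s) (m := m) hR hs (by positivity) hbig (by positivity) hsm H.τ0 hΦ0 hΦb (by
        have h2 : 4 * (m * Real.exp (6 * R / s)) = M / 8 * Real.exp (-u) *
            (32 * Real.exp (6 * R / s + (R + ρ) * (A * Λ) + u + -(e₂ * Λ))) := by
          rw [hm, Real.exp_add, Real.exp_add, Real.exp_add]
          have h3 : Real.exp (-u) * Real.exp u = 1 := by rw [← Real.exp_add]; simp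
          linear_combination (-4 * M * Real.exp (6 * R / s) * Real.exp ((R + ρ) * (A * Λ)) *
            Real.exp (-(e₂ * Λ))) * h3
        rw [h2]
        have h3 : Real.exp (6 * R / s + (R + ρ) * (A * Λ) + u + -(e₂ * Λ)) ≤ Real.exp (-4) :=
          Real.exp_le_exp.2 (by linarith)
        have h4 : 32 * Real.exp (-4) ≤ 1 := by
          have h5 : Real.exp (-4) * Real.exp 4 = 1 := by rw [← Real.exp_add]; simp
          have h6 : 32 ≤ Real.exp 4 := by
            have h7 := Real.exp_one_gt_d9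
            have h8 : Real.exp 4 = Real.exp 1 ^ 4 := by rw [← Real.exp_nat_mul]; norm_num
            rw [h8]
            have h9 : (2.5 : ℝ) ^ 4 ≤ Real.exp 1 ^ 4 := pow_le_pow_left₀ (by norm_num) (by linarith) 4
            norm_num at h9
            linarith
          nlinarith [Real.exp_pos (-4)]
        have h5 : 32 * Real.exp (6 * R / s + (R + ρ) * (A * Λ) + u + -(e₂ * Λ)) ≤ 1 := by linarith
        calc M / 8 * Real.exp (-u) * (32 * Real.exp (6 * R / s + (R + ρ) * (A * Λ) + u + -(e₂ * Λ)))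
            ≤ M / 8 * Real.exp (-u) * 1 := mul_le_mul_of_nonneg_left h5 (by positivity)
          _ = _ := mul_one _)
      (S := S.image (fun z => z - (x : ℂ))) (by
        intro w hw
        obtain ⟨z, hz, rfl⟩ := Finset.mem_image.1 hw
        exact hS z hz) (by
        intro w hw w' hw' hne
        obtain ⟨z, hz, rfl⟩ := Finset.mem_image.1 hw
        obtain ⟨z', hz', rfl⟩ := Finset.mem_image.1 hw'
        have h1 := hsep z hz z' hz' (fun h => hne (by rw [h]))
        have e : (z - (x : ℂ)).im - (z' - (x : ℂ)).im = z.im - z'.im := by simp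
        rw [e]
        exact h1) (by
        intro w hw
        obtain ⟨z, hz, rfl⟩ := Finset.mem_image.1 hw
        have e : (x : ℂ) + (z - x) = z := by ring
        rw [hΦ]
        simp only
        rw [e, norm_mul, hPn, hm]
        have h3 := hnear (z - x) (hS z hz)
        rw [e] at h3
        exact mul_le_mul (hSF z hz) (Real.exp_le_exp.2 (ph_le H (by linarith) h3)) (Real.exp_pos _).le
          (by positivity))
    rw [Finset.sum_image (fun z _ w _ h => sub_left_injective h), hlog] at h1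
    exact h1

end Pool.Agent.T2h09.LD
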