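import Mathlib
import Pool.Agent.W587.PL.G
import Pool.Agent.T2h09.LD.Pk

/-!
The structure `Pk` near a weighted maximum of an `L`-function. The proof of `peak2` is the one of
`Pool.Agent.TH804.DL.peak_local` (in which the function `G` is not specified).
-/

set_option autoImplicit false

open Complex Filter Topology Metric Set
open W587.PL

set_option maxHeartbeats 4000000

namespace Pool.Agent.T2h09.LD

theorem peak2 {ε B : ℝ} (hε : 0 < ε) (hε1 : ε ≤ 1) (hB : 1 ≤ B) :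
    ∃ a δ W : ℝ, 1 / 2 < a ∧ a ≤ 3 / 4 ∧ 0 < δ ∧ 1 ≤ W ∧
    ∀ (F : ℂ → ℂ) (Λ ℓ : ℝ), 1 ≤ Λ → Loc F a δ B W Λ ℓ → 1 ≤ ‖F 0‖ →
      ∃ y₀ M : ℝ, |y₀| + 1 ≤ W ∧ ‖F 0‖ ≤ M ∧ M ≤ ‖F (y₀ * I)‖ ∧
        ‖GG F (ε / 64) Λ ℓ (y₀ * I)‖ = M ∧
          (∀ x y : ℝ, |x| ≤ a → |y| ≤ W → ‖GG F (ε / 64) Λ ℓ (x + y * I)‖ ≤
            M * Real.exp ((max (ℓ - 4 * Real.log ‖F 0‖) 0 + ε / 4 * Λ) / 2 * |x|)) ∧
          Real.log ‖F 0‖ ≤ B * Λ ∧ ℓ ≤ B * Λ := by
  have hpi := Real.pi_pos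
  have hpi3 := Real.pi_gt_three
  have hBp : 0 < B := by linarith
  set e : ℝ := ε / (64 * B) with he
  have he0 : 0 < e := by positivity
  have heB : e * B = ε / 64 := by rw [he]; field_simp
  have he1 : e ≤ 1 / 64 := by
    rw [he, div_le_div_iff₀ (by positivity) (by norm_num)]
    nlinarith
  set a : ℝ := 1 / 2 + e with ha
  set c : ℝ := ε / 64 with hc
  have hc0 : 0 < c := by positivity
  have hc1 : c ≤ 1 / 64 := by rw [hc]; linarith
  -- the window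
  set V : ℝ := (2 * B + c) / c + 1 with hV
  have hV1 : 1 ≤ V := by
    have : 0 ≤ (2 * B + c) / c := by positivity
    linarith
  have hVc : 2 * B + c ≤ c * V ^ 2 := by
    have h1 : (2 * B + c) / c ≤ V := by rw [hV]; linarith
    have h2 : 2 * B + c ≤ c * V := by
      rw [div_le_iff₀ hc0] at h1
      linarith
    nlinarith
  set W : ℝ := V + 1 with hW
  refine ⟨a, c, W, by linarith, by linarith, hc0, by linarith, ?_⟩
  intro F Λ ℓ hΛ H hF0
  have hΛ0 : 0 < Λ := lt_of_lt_of_le one_pos hΛ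
  have hℓ0 := H.l0
  have hℓB := H.lB
  set f : ℝ := ‖F 0‖ with hf
  have hf0 : 0 < f := by linarith
  have hlf : 0 ≤ Real.log f := Real.log_nonneg hF0
  have hfB : Real.log f ≤ B * Λ := by
    have h1 := H.crude 0 0 (by rw [abs_zero]; linarith) (by rw [abs_zero]; linarith)
    have e0 : (((0 : ℝ) : ℂ) + ((0 : ℝ) : ℂ) * I) = 0 := by simp
    rw [e0] at h1
    rw [← Real.log_exp (B * Λ)]
    exact Real.log_le_log hf0 h1
  set G : ℂ → ℂ := GG F c Λ ℓ with hG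
  have hGd : Differentiable ℂ G := GG_diff H.diff c Λ ℓ
  -- values on the imaginary axis
  have hGi : ∀ y : ℝ, ‖G (y * I)‖ = ‖F (y * I)‖ * Real.exp (-(c * Λ * y ^ 2)) := by
    intro y
    have h1 := GG_norm F c Λ ℓ 0 y
    rw [Complex.ofReal_zero, zero_add] at h1
    rw [hG, h1]
    congr 2
    ring
  have hGle : ∀ y : ℝ, ‖G (y * I)‖ ≤ ‖F (y * I)‖ := by
    intro y
    rw [hGi]
    have : Real.exp (-(c * Λ * y ^ 2)) ≤ 1 := by
      rw [Real.exp_le_one_iff]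
      have : 0 ≤ c * Λ * y ^ 2 := by positivity
      linarith
    calc ‖F (y * I)‖ * Real.exp (-(c * Λ * y ^ 2)) ≤ ‖F (y * I)‖ * 1 :=
          mul_le_mul_of_nonneg_left this (norm_nonneg _)
      _ = _ := mul_one _
  have hG0 : ‖G ((0 : ℝ) * I)‖ = f := by
    rw [hGi]
    simp [hf]
  -- edges
  have hedge : ∀ x y : ℝ, |x| ≤ a → V ≤ |y| → |y| ≤ W → ‖G (x + y * I)‖ ≤ 1 := by
    intro x y hx hy1 hy2
    rw [hG, GG_norm]
    have h1 := H.crude x y hx hy2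
    have h2 : ℓ / 2 * x + c * Λ * (x ^ 2 - y ^ 2) ≤ -(B * Λ) := by
      have h3 : x ^ 2 ≤ 1 := by
        rw [sq_le_one_iff_abs_le_one]
        linarith
      have h4 : V ^ 2 ≤ y ^ 2 := by
        rw [← sq_abs y]
        exact pow_le_pow_left₀ (by linarith) hy1 2
      have h5 : ℓ / 2 * x ≤ B * Λ := by
        have h51 : x ≤ 1 := by linarith [le_abs_self x]
        have h52 : ℓ / 2 * x ≤ ℓ / 2 * 1 := mul_le_mul_of_nonneg_left h51 (by linarith)
        linarith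
      have h6 : c * Λ * (x ^ 2 - y ^ 2) ≤ c * Λ * (1 - V ^ 2) :=
        mul_le_mul_of_nonneg_left (by linarith) (by positivity)
      have h7 : (2 * B + c) * Λ ≤ c * V ^ 2 * Λ := mul_le_mul_of_nonneg_right hVc hΛ0.le
      have h8 : c * Λ * (1 - V ^ 2) = c * Λ - c * V ^ 2 * Λ := by ring
      have h9 : (2 * B + c) * Λ = 2 * (B * Λ) + c * Λ := by ring
      linarith
    calc ‖F (x + y * I)‖ * Real.exp (ℓ / 2 * x + c * Λ * (x ^ 2 - y ^ 2))
        ≤ Real.exp (B * Λ) * Real.exp (-(B * Λ)) :=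
          mul_le_mul h1 (Real.exp_le_exp.2 h2) (Real.exp_pos _).le (Real.exp_pos _).le
      _ = 1 := by rw [← Real.exp_add]; simp
  -- the maximum
  obtain ⟨y₁, hy₁, hmax⟩ := (isCompact_Icc (a := -W) (b := W)).exists_isMaxOn
    (nonempty_Icc.2 (by linarith)) (f := fun y : ℝ => ‖G (y * I)‖) (by
      apply Continuous.continuousOn
      exact (hGd.continuous.comp (by fun_prop)).norm)
  set M : ℝ := ‖G (y₁ * I)‖ with hM
  have hmax' : ∀ y : ℝ, |y| ≤ W → ‖G (y * I)‖ ≤ M := fun y hy => hmax (abs_le.1 hy)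
  have hfM : f ≤ M := by
    rw [← hG0]
    exact hmax' 0 (by rw [abs_zero]; linarith)
  have hM1 : 1 ≤ M := hF0.trans hfM
  have hM0 : 0 < M := by linarith
  obtain ⟨y₀, hy₀, hGy₀⟩ : ∃ y₀ : ℝ, |y₀| ≤ V ∧ ‖G (y₀ * I)‖ = M := by
    rcases le_or_gt |y₁| V with h | h
    · exact ⟨y₁, h, rfl⟩
    · have h1 := hedge 0 y₁ (by rw [abs_zero]; linarith) h.le (abs_le.2 hy₁)
      rw [Complex.ofReal_zero, zero_add] at h1
      have h2 : M = 1 := le_antisymm h1 hM1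
      refine ⟨0, by rw [abs_zero]; linarith, ?_⟩
      rw [hG0, h2]
      linarith
  -- the type
  set P : ℝ := max (ℓ - 4 * Real.log f) 0 with hP
  have hP0 : 0 ≤ P := le_max_right _ _
  have hPB : P ≤ B * Λ := max_le (by linarith) (by positivity)
  set A : ℝ := Real.exp (2 * c * Λ + a * ℓ / 2) with hA
  have hA1 : 1 ≤ A := Real.one_le_exp (by positivity)
  have hlA : Real.log A = 2 * c * Λ + a * ℓ / 2 := Real.log_exp _
  set τ : ℝ := (P + ε / 4 * Λ) / 2 with hτ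
  have hτ0 : 0 < τ := by positivity
  have ha0 : 0 < a := by linarith
  have ha2 : 1 / a ≤ 2 := by
    rw [div_le_iff₀ ha0]; linarith
  have htype : (Real.log A - Real.log M) / a ≤ τ := by
    rw [hlA, div_le_iff₀ ha0]
    have h1 : Real.log f ≤ Real.log M := Real.log_le_log hf0 hfM
    have h2 : ℓ - 4 * Real.log f ≤ P := le_max_left _ _
    -- want: 2cΛ + aℓ/2 - log M ≤ τ a
    have h3 : τ * a = (P + ε / 4 * Λ) / 2 * a := by rw [hτ]
    rw [h3]
    have h4 : (ℓ - 4 * Real.log f) * a ≤ P * a := mul_le_mul_of_nonneg_right h2 ha0.le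
    have h5 : (2 * a - 1) * Real.log f ≤ 2 * e * (B * Λ) := by
      have : 2 * a - 1 = 2 * e := by rw [ha]; ring
      rw [this]
      exact mul_le_mul_of_nonneg_left hfB (by positivity)
    have h6 : 2 * e * (B * Λ) = ε / 32 * Λ := by
      rw [show 2 * e * (B * Λ) = 2 * (e * B) * Λ by ring, heB]; ring
    have h7 : ε / 4 * Λ / 2 * (1 / 2) ≤ ε / 4 * Λ / 2 * a :=
      mul_le_mul_of_nonneg_left (by linarith) (by positivity)
    have h8 : 2 * c * Λ = ε / 32 * Λ := by rw [hc]; ring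
    have h9 : 0 < ε * Λ := by positivity
    have h10 : (ℓ - 4 * Real.log f) * a = a * ℓ - 2 * Real.log f - 2 * ((2 * a - 1) * Real.log f) := by
      ring
    have h11 : (P + ε / 4 * Λ) / 2 * a = P * a / 2 + ε / 4 * Λ / 2 * a := by ring
    rw [h11, h8]
    have h12 : ε / 4 * Λ / 2 * (1 / 2) = ε * Λ / 16 := by ring
    have h13 : ε / 32 * Λ = ε * Λ / 32 := by ring
    rw [h13] at h6 ⊢
    linarith
  have hbox : ∀ x y : ℝ, |x| ≤ a → |y| ≤ W → ‖G (x + y * I)‖ ≤ M * Real.exp (τ * |x|) := by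
    intro x y hx hy
    have h1 := box hGd ha0 (by linarith : (0:ℝ) < W) hM1 hA1 hmax' (fun x y hx hy => by
      rw [hG, GG_norm]
      have h2 := H.side x y hx hy
      have h3 : x ^ 2 ≤ 1 := by
        rw [sq_le_one_iff_abs_le_one, hx]; linarith
      have h31 : 0 ≤ y ^ 2 := sq_nonneg y
      have h4 : c * Λ * (x ^ 2 - y ^ 2) ≤ c * Λ * 1 :=
        mul_le_mul_of_nonneg_left (by linarith) (by positivity)
      rw [hA]
      calc ‖F (x + y * I)‖ * Real.exp (ℓ / 2 * x + c * Λ * (x ^ 2 - y ^ 2))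
          ≤ Real.exp (c * Λ + (a - x) * ℓ / 2) * Real.exp (ℓ / 2 * x + c * Λ * 1) :=
            mul_le_mul h2 (Real.exp_le_exp.2 (by linarith)) (Real.exp_pos _).le (Real.exp_pos _).le
        _ = _ := by rw [← Real.exp_add]; congr 1; ring) (fun x y hx hy =>
      hedge x y hx (by rw [hy]; linarith) hy.le) hx hy
    refine h1.trans ?_
    apply mul_le_mul_of_nonneg_left _ hM0.le
    apply Real.exp_le_exp.2
    rw [mul_comm τ]
    exact mul_le_mul_of_nonneg_left htype (abs_nonneg x)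
  refine ⟨y₀, M, by linarith, hfM, ?_, hGy₀, fun x y hx hy => hbox x y hx hy, hfB, hℓB⟩
  rw [← hGy₀]
  exact hGle y₀


theorem peak_pk {ε B : ℝ} (hε : 0 < ε) (hε1 : ε ≤ 1) (hB : 1 ≤ B) :
    ∃ a δ W A : ℝ, 1 / 2 < a ∧ a ≤ 3 / 4 ∧ 0 < δ ∧ 1 ≤ W ∧ 1 ≤ A ∧
    ∀ (F : ℂ → ℂ) (Λ ℓ : ℝ), 1 ≤ Λ → Loc F a δ B W Λ ℓ → ε * Λ ≤ Real.log ‖F 0‖ →
      Real.log ‖F 0‖ ≤ ε / 8 * Λ + ℓ / 4 →
      ∃ (y₀ M τ β : ℝ) (K₀ α : ℂ) (f : ℂ → ℂ), |y₀| + 1 ≤ W ∧ ‖F 0‖ ≤ M ∧ ‖F 0‖ ≤ ‖F (y₀ * I)‖ ∧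
        1 ≤ ‖K₀‖ ∧ (∀ z, F (y₀ * I + z) = K₀ * f z) ∧ Pk f α β M τ Λ A ε ∧
        2 * τ ≤ ℓ - 4 * Real.log ‖F 0‖ + 5 / 8 * ε * Λ := by
  obtain ⟨a, δ, W, ha, ha', hδ, hW, hpk⟩ := peak2 (ε := ε / 2) (B := B) (by linarith) (by linarith) hB
  set c : ℝ := ε / 2 / 64 with hc
  have hc0 : 0 < c := by positivity
  refine ⟨a, δ, W, B + 2 * c * W + 2 * c + 1, ha, ha', hδ, hW, by
    have : 0 ≤ 2 * c * W := by positivity
    linarith, ?_⟩
  intro F Λ ℓ hΛ1 H hlow hcx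
  have hΛ0 : 0 < Λ := by linarith
  have hεΛ : 0 < ε * Λ := by positivity
  have hF0 : 1 ≤ ‖F 0‖ := by
    by_contra hcon
    push Not at hcon
    have := Real.log_nonpos (norm_nonneg (F 0)) hcon.le
    linarith
  obtain ⟨y₀, M, hy₀, hFM, hMF, hGy, hbox, hfB, hℓB⟩ := hpk F Λ ℓ hΛ1 H hF0
  have hℓ0 := H.l0
  have hlf : 0 ≤ Real.log ‖F 0‖ := Real.log_nonneg hF0
  set P : ℝ := max (ℓ - 4 * Real.log ‖F 0‖) 0 with hP
  have hP0 : 0 ≤ P := le_max_right _ _
  have hPB : P ≤ B * Λ := max_le (by linarith) (by positivity)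
  have hP1 : P ≤ ℓ - 4 * Real.log ‖F 0‖ + ε / 2 * Λ := by
    apply max_le
    · have : 0 ≤ ε / 2 * Λ := by positivity
      linarith
    · linarith
  set τ : ℝ := (P + ε / 2 / 4 * Λ) / 2 with hτ
  set k : ℂ := Complex.exp ((ℓ / 2 : ℝ) * (y₀ * I) - (c * Λ * y₀ ^ 2 : ℝ)) with hk
  have hk0 : k ≠ 0 := Complex.exp_ne_zero _
  have hkn : ‖k‖ = Real.exp (-(c * Λ * y₀ ^ 2)) := by
    rw [hk, Complex.norm_exp]
    congr 1
    rw [Complex.sub_re, Complex.ofReal_re, Complex.re_ofReal_mul, Complex.re_ofReal_mul, Complex.I_re]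
    ring
  set f : ℂ → ℂ := fun z => k * F (y₀ * I + z) with hf
  set α : ℂ := (ℓ / 2 : ℝ) + (2 * c * Λ * y₀ : ℝ) * I with hα
  have hexp : ∀ z : ℂ, GG F c Λ ℓ (y₀ * I + z) = f z * Complex.exp (ph α (c * Λ) z) := by
    intro z
    rw [hf, hk]
    simp only
    unfold GG ph
    rw [mul_comm (Complex.exp _) (F _), mul_assoc, ← Complex.exp_add]
    congr 2
    rw [hα]
    push_cast
    linear_combination (c * Λ * y₀ ^ 2 : ℂ) * I_sq
  have hnorm : ∀ z : ℂ, ‖f z‖ * Real.exp (ph α (c * Λ : ℝ) z).re = ‖GG F c Λ ℓ (y₀ * I + z)‖ := by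
    intro z
    rw [hexp, norm_mul (f z), Complex.norm_exp]
  have hαre : α.re = ℓ / 2 := by
    rw [hα, Complex.add_re, Complex.ofReal_re, Complex.re_ofReal_mul, Complex.I_re, mul_zero, add_zero]
  have hyW : |y₀| ≤ W := by linarith
  refine ⟨y₀, M, τ, c * Λ, k⁻¹, α, f, hy₀, hFM, hFM.trans hMF, ?_, fun z => ?_, ?_, ?_⟩
  · rw [norm_inv, hkn, ← Real.exp_neg, neg_neg]
    exact Real.one_le_exp (by positivity)
  · rw [hf]
    simp only
    rw [← mul_assoc, inv_mul_cancel₀ hk0, one_mul]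
  · refine ⟨?_, hF0.trans hFM, ?_, ?_, by positivity, ?_, by positivity, ?_, ?_, hΛ1, ?_, hε.le⟩
    · exact (H.diff.comp (by fun_prop)).const_mul k
    · have h1 := hnorm 0
      have e : ph α (c * Λ : ℝ) 0 = 0 := by unfold ph; simp
      rw [e, Complex.zero_re, Real.exp_zero, mul_one, add_zero] at h1
      rw [h1]
      exact hGy
    · intro z hz
      rw [hnorm]
      have e : (y₀ : ℂ) * I + z = (z.re : ℂ) + ((y₀ + z.im : ℝ) : ℂ) * I := by
        apply Complex.ext <;> simp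
      rw [e]
      have h1 := Complex.abs_re_le_norm z
      have h2 := Complex.abs_im_le_norm z
      have h3 := abs_add_le y₀ z.im
      exact hbox z.re (y₀ + z.im) (by linarith) (by linarith)
    · have h1 : ‖α‖ ≤ ℓ / 2 + 2 * c * Λ * W := by
        rw [hα]
        refine (norm_add_le _ _).trans ?_
        rw [norm_mul, Complex.norm_I, mul_one, Complex.norm_real, Complex.norm_real, Real.norm_eq_abs,
          Real.norm_eq_abs, abs_of_nonneg (by positivity : 0 ≤ ℓ / 2), abs_mul,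
          abs_of_nonneg (by positivity : 0 ≤ 2 * c * Λ)]
        have := mul_le_mul_of_nonneg_left hyW (by positivity : 0 ≤ 2 * c * Λ)
        linarith
      have h2 : (B + 2 * c * W + 2 * c + 1) * Λ = B * Λ + 2 * c * Λ * W + 2 * (c * Λ) + Λ := by ring
      rw [h2]
      have : 0 ≤ B * Λ := by positivity
      linarith
    · have h2 : (B + 2 * c * W + 2 * c + 1) * Λ = B * Λ + 2 * c * Λ * W + 2 * (c * Λ) + Λ := by ring
      rw [h2, hτ]
      have h3 : 0 ≤ 2 * c * Λ * W := by positivity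
      have h4 : 0 ≤ 2 * (c * Λ) := by positivity
      have h5 : ε / 2 / 4 * Λ ≤ 1 * Λ := mul_le_mul_of_nonneg_right (by linarith) hΛ0.le
      have h6 : 0 ≤ B * Λ := by positivity
      linarith
    · rw [hαre, hτ]
      linarith
    · have : 0 ≤ 2 * c * W := by positivity
      linarith
  · rw [hτ]
    linarith

end Pool.Agent.T2h09.LD
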