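import Mathlib
import Pool.Agent.T2h09.LD.Peak

/-!
The law for large values and the functions `(d/ds - w₁) ⋯ (d/ds - w_k) L - h`, for families.
-/

set_option autoImplicit false

open Complex Filter Topology Metric Set
open W587.PL

set_option maxHeartbeats 4000000

namespace Pool.Agent.T2h09.LD

variable {ι : Type*} {L : ι → ℂ → ℂ} {X Q : ι → ℝ → ℝ}

lemma ff_diff (hL : ∀ i, Differentiable ℂ (L i)) {w : ι → List ℂ} {h : ι → ℂ → ℂ}
    (hh : ∀ i, Differentiable ℂ (h i)) (i : ι) : Differentiable ℂ (FF L w h i) :=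
  (op_diff (hL i) (w i)).sub (hh i)

lemma order_shift {F G : ℂ → ℂ} {a k : ℂ} (hF : Differentiable ℂ F) (hk : k ≠ 0) (h : ∀ z, F (a + z) = k * G z)
    (z : ℂ) : analyticOrderNatAt F (a + z) = analyticOrderNatAt G z := by
  have hG : G = fun z => k⁻¹ * F (a + z) := by
    funext z
    rw [h, ← mul_assoc, inv_mul_cancel₀ hk, one_mul]
  have h3 : AnalyticAt ℂ (fun z : ℂ => a + z) z := by fun_prop
  have h4 : deriv (fun z : ℂ => a + z) z ≠ 0 := by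
    rw [deriv_const_add, deriv_id'']
    exact one_ne_zero
  have h5 := analyticOrderAt_comp_of_deriv_ne_zero (f := F) h3 h4
  have h6 : Differentiable ℂ (fun z : ℂ => F (a + z)) := hF.comp (by fun_prop)
  have h7 : analyticOrderAt (fun _ : ℂ => k⁻¹) z = 0 :=
    analyticAt_const.analyticOrderAt_eq_zero.2 (inv_ne_zero hk)
  have h8 := analyticOrderAt_mul (analyticAt_const (v := k⁻¹) (x := z)) (h6.analyticAt z)
  rw [h7, zero_add] at h8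
  unfold analyticOrderNatAt
  rw [hG]
  have h9 : ((fun _ : ℂ => k⁻¹) * fun z : ℂ => F (a + z)) = fun z => k⁻¹ * F (a + z) := rfl
  rw [h9] at h8
  rw [h8, ← h5]
  rfl

lemma exp_neg_one_le : Real.exp (-1) ≤ 1 / 2 := by
  have h1 := Real.exp_one_gt_d9
  have h2 : Real.exp (-1) * Real.exp 1 = 1 := by rw [← Real.exp_add]; simp
  nlinarith [Real.exp_pos (-1)]

lemma eight_le : (8 : ℝ) ≤ Real.exp 3 := by
  have h7 := Real.exp_one_gt_d9
  have h8 : Real.exp 3 = Real.exp 1 ^ 3 := by rw [← Real.exp_nat_mul]; norm_num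
  rw [h8]
  have h9 : (2 : ℝ) ^ 3 ≤ Real.exp 1 ^ 3 := pow_le_pow_left₀ (by norm_num) (by linarith) 3
  norm_num at h9
  linarith

lemma small_const {K : ℕ} {A Λ η ρ ε : ℝ} (hΛ : 0 < Λ) (hε : 0 < ε) (hρ : 0 < ρ)
    (h1 : K * Real.log (Real.exp (η * Λ) + Λ) ≤ K + K * η * Λ)
    (h2 : K * (η * Λ * ρ) ≤ K * η * Λ) (h3 : K * η * Λ ≤ ε * ρ / 8 * Λ)
    (h4 : 16 + 2 * A * K + 2 * K ≤ ε * ρ / 4 * Λ) :
    Real.exp (K * (η * Λ * ρ)) * (K * (Real.exp (-(ε * Λ * ρ)) *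
      (Real.exp (2 * A * K) * (Real.exp (η * Λ) + Λ) ^ K))) ≤ 1 / 2 := by
  have hqΛ0 : 0 < Real.exp (η * Λ) + Λ := by positivity
  have h5 : (Real.exp (η * Λ) + Λ) ^ K ≤ Real.exp (K + K * η * Λ) := by
    rw [← Real.log_le_iff_le_exp (by positivity), Real.log_pow]
    exact h1
  have h6 : (K : ℝ) ≤ Real.exp K := by
    have := Real.add_one_le_exp (K : ℝ)
    linarith
  calc Real.exp (K * (η * Λ * ρ)) * (K * (Real.exp (-(ε * Λ * ρ)) *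
        (Real.exp (2 * A * K) * (Real.exp (η * Λ) + Λ) ^ K)))
      ≤ Real.exp (K * η * Λ) * (Real.exp K * (Real.exp (-(ε * Λ * ρ)) *
        (Real.exp (2 * A * K) * Real.exp (K + K * η * Λ)))) := by
        apply mul_le_mul (Real.exp_le_exp.2 h2) _ (by positivity) (Real.exp_pos _).le
        apply mul_le_mul h6 _ (by positivity) (Real.exp_pos _).le
        apply mul_le_mul_of_nonneg_left _ (Real.exp_pos _).le
        exact mul_le_mul_of_nonneg_left h5 (Real.exp_pos _).le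
    _ = Real.exp (K * η * Λ + (K + (-(ε * Λ * ρ) + (2 * A * K + (K + K * η * Λ))))) := by
        simp only [Real.exp_add]
    _ ≤ Real.exp (-1) := by
        apply Real.exp_le_exp.2
        have e4 : ε * ρ / 8 * Λ = ε * ρ * Λ / 8 := by ring
        have e5 : ε * ρ / 4 * Λ = ε * ρ * Λ / 4 := by ring
        have e6 : ε * Λ * ρ = ε * ρ * Λ := by ring
        rw [e4] at h3
        rw [e5] at h4
        rw [e6]
        have h7 : 0 < ε * ρ * Λ := by positivity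
        linarith
    _ ≤ 1 / 2 := exp_neg_one_le

lemma sum_bound {K : ℕ} {A Λ η ρ ε R τ ℓ lV : ℝ} (hR : 0 < R) (hε : 0 < ε) (hΛ : 0 < Λ) (hρ : 0 < ρ)
    (hτ : 2 * τ ≤ ℓ - 4 * lV + 5 / 8 * ε * Λ) (hτA : τ ≤ A * Λ) (hρA : ρ * (32 * A) ≤ R * ε)
    (h1 : K * Real.log (Real.exp (η * Λ) + Λ) ≤ K + K * η * Λ)
    (h2 : K * (η * Λ * ρ) ≤ K * η * Λ) (h3 : K * η * Λ ≤ R * ε / 64 * Λ)
    (h4 : 16 + 2 * A * K + 2 * K ≤ R * ε / 32 * Λ) :
    2 * R / Real.pi * τ + (τ * ρ + Real.log 16 + 2 * A * K +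
      K * Real.log (Real.exp (η * Λ) + Λ) + K * (η * Λ * ρ)) ≤
      R / Real.pi * (ℓ - 4 * lV + ε * Λ) := by
  have hpi := Real.pi_pos
  have hpi4 := Real.pi_le_four
  have hK0 : (0 : ℝ) ≤ K := Nat.cast_nonneg K
  have hlog16 : Real.log 16 ≤ 16 := by
    have := Real.log_le_sub_one_of_pos (show (0:ℝ) < 16 by norm_num)
    linarith
  have e1 : 2 * R / Real.pi * τ = R / Real.pi * (2 * τ) := by ring
  have h5 : R / Real.pi * (2 * τ) ≤ R / Real.pi * (ℓ - 4 * lV + 5 / 8 * ε * Λ) :=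
    mul_le_mul_of_nonneg_left hτ (by positivity)
  have h6 : τ * ρ ≤ R * ε / 32 * Λ := by
    calc τ * ρ ≤ A * Λ * ρ := mul_le_mul_of_nonneg_right hτA hρ.le
      _ = ρ * (32 * A) / 32 * Λ := by ring
      _ ≤ R * ε / 32 * Λ := mul_le_mul_of_nonneg_right (by linarith) hΛ.le
  have h7 : 3 * (R * ε / 32 * Λ) ≤ R / Real.pi * (3 / 8 * ε * Λ) := by
    have h8 : R / 4 ≤ R / Real.pi := div_le_div_of_nonneg_left hR.le hpi hpi4
    have h9 := mul_le_mul_of_nonneg_right h8 (by positivity : 0 ≤ 3 / 8 * ε * Λ)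
    linarith
  have h8 : R / Real.pi * (ℓ - 4 * lV + ε * Λ) =
      R / Real.pi * (ℓ - 4 * lV + 5 / 8 * ε * Λ) + R / Real.pi * (3 / 8 * ε * Λ) := by ring
  rw [e1, h8]
  linarith

lemma core {f : ℂ → ℂ} {α : ℂ} {β M τ Λ A ε R R₀ ρ η V ℓ : ℝ} {K : ℕ} (hPk : Pk f α β M τ Λ A ε)
    (hε : 0 < ε) (hA0 : 0 < A) (hR : 0 < R) (hRle : R ≤ R₀) (hR₀1 : R₀ ≤ 1 / 8)
    (hR₀3 : R₀ * (16 * (A + 6)) ≤ ε) (hρ0 : 0 < ρ) (hρR : ρ ≤ R) (hρ2 : ρ * (32 * A) ≤ R * ε)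
    (hη0 : 0 < η) (hη1 : K * η ≤ R * ε / 64) (hη2 : K * η ≤ ε * ρ / 8)
    (hk1 : 16 + 2 * A * K + 2 * K ≤ R * ε / 32 * Λ) (hk2 : 16 + 2 * A * K + 2 * K ≤ ε * ρ / 4 * Λ)
    (hk3 : 64 ≤ ε * Λ) (hk4 : 4 * (K : ℝ) ≤ Λ) (hk5 : Λ ≤ Real.exp (η * Λ)) (hV0 : 0 < V) (hFM : V ≤ M)
    (hτ : 2 * τ ≤ ℓ - 4 * Real.log V + 5 / 8 * ε * Λ) {l : List ℂ} (hl : l.length ≤ K)
    (hwl : ∀ a ∈ l, ‖a‖ ≤ Real.exp (η * Λ) ∧ -(η * Λ) ≤ a.re) {h₁ : ℂ → ℂ} (hh₁d : Differentiable ℂ h₁)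
    (hh₁b : ∀ z : ℂ, ‖z‖ ≤ R + ρ → ‖h₁ z‖ ≤ M * Real.exp (-(ε / 2 * Λ))) :
    ∃ u : ℝ, 0 ≤ u ∧ u ≤ ρ ∧ Real.exp (-ε * Λ) * V ≤ ‖Op l f u - h₁ u‖ ∧
      (∀ S : Finset ℂ, (∀ z ∈ S, ‖z - u‖ ≤ R) →
        ∑ z ∈ S, (analyticOrderNatAt (fun z => Op l f z - h₁ z) z : ℝ) * Real.log (R / ‖z - u‖) ≤
          R / Real.pi * (ℓ - 4 * Real.log V + ε * Λ)) ∧
      ∀ (η₀ : ℝ) (S : Finset ℂ), 0 < η₀ → R ≤ R₀ * η₀ → (∀ z ∈ S, ‖z - u‖ ≤ R) →
        (∀ z ∈ S, ‖Op l f z - h₁ z‖ ≤ Real.exp (-(ε / 2) * Λ) * V) →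
        (∀ z ∈ S, ∀ w ∈ S, z ≠ w → η₀ / Λ ≤ |z.im - w.im|) →
        ∑ z ∈ S, Real.log (R / ‖z - u‖) ≤ R / Real.pi * (ℓ - 4 * Real.log V + ε * Λ) + 1 := by
  have hΛ0 : 0 < Λ := by linarith [hPk.Λ1]
  have hM0 : 0 < M := by linarith
  have hK0 : (0 : ℝ) ≤ K := Nat.cast_nonneg K
  have hεΛ : 0 < ε * Λ := by positivity
  have hKη : K * η * Λ ≤ R * ε / 64 * Λ := mul_le_mul_of_nonneg_right hη1 hΛ0.le
  have hKη2 : K * η * Λ ≤ ε * ρ / 8 * Λ := mul_le_mul_of_nonneg_right hη2 hΛ0.le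
  have hKη0 : 0 ≤ K * η * Λ := by positivity
  have hR1 : R ≤ 1 / 8 := hRle.trans hR₀1
  have hKωρ : K * (η * Λ * ρ) ≤ K * η * Λ := by
    calc K * (η * Λ * ρ) = K * η * Λ * ρ := by ring
      _ ≤ K * η * Λ * 1 := mul_le_mul_of_nonneg_left (by linarith only [hR1, hρR]) hKη0
      _ = _ := mul_one _
  have hAR : 2 * (A * R) ≤ ε / 8 := by
    have h1 : R * (16 * (A + 6)) ≤ R₀ * (16 * (A + 6)) := mul_le_mul_of_nonneg_right hRle (by positivity)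
    have h2 : R * (16 * (A + 6)) = 16 * (A * R) + 96 * R := by ring
    linarith only [h1, h2, hR₀3, hR]
  have hAρ : (R + ρ) * A ≤ 2 * (A * R) := by
    have h1 : A * ρ ≤ A * R := mul_le_mul_of_nonneg_left hρR hA0.le
    have h2 : (R + ρ) * A = A * R + A * ρ := by ring
    linarith only [h1, h2]
  have hRεΛ : R * ε / 64 * Λ ≤ ε * Λ / 64 := by
    have h1 : R * (ε * Λ) ≤ 1 * (ε * Λ) := mul_le_mul_of_nonneg_right (by linarith only [hR1]) hεΛ.le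
    have h2 : R * ε / 64 * Λ = R * (ε * Λ) / 64 := by ring
    linarith only [h1, h2]
  have hKlogq : K * Real.log (Real.exp (η * Λ) + Λ) ≤ K + K * η * Λ := by
    have hlog2 : Real.log 2 ≤ 1 := by
      have := Real.log_two_lt_d9
      linarith only [this]
    have hlogq : Real.log (Real.exp (η * Λ) + Λ) ≤ 1 + η * Λ := by
      have h1 := Real.log_le_log (by positivity)
        (by linarith only [hk5] : Real.exp (η * Λ) + Λ ≤ 2 * Real.exp (η * Λ))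
      rw [Real.log_mul (by norm_num) (Real.exp_pos _).ne', Real.log_exp] at h1
      linarith only [h1, hlog2]
    calc K * Real.log (Real.exp (η * Λ) + Λ) ≤ K * (1 + η * Λ) := mul_le_mul_of_nonneg_left hlogq hK0
      _ = _ := by ring
  have hcK := small_const hΛ0 hε hρ0 hKlogq hKωρ hKη2 hk2
  have hd8 : ∀ t : ℝ, ε / 2 * Λ ≤ t → 8 * Real.exp (-t) ≤ Real.exp (-(K * (η * Λ * ρ))) := by
    intro t ht
    calc 8 * Real.exp (-t) ≤ Real.exp 3 * Real.exp (-t) :=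
          mul_le_mul_of_nonneg_right eight_le (Real.exp_pos _).le
      _ = Real.exp (3 + -t) := (Real.exp_add _ _).symm
      _ ≤ _ := by
          apply Real.exp_le_exp.2
          linarith only [ht, hKωρ, hKη, hRεΛ, hk3]
  have hRρ : R + ρ ≤ 1 / 4 := by linarith only [hρR, hR1]
  have hRe : (R + ρ) * A ≤ ε / 2 := by linarith only [hAρ, hAR, hε]
  obtain ⟨u, hu0, hu1, hlow, hzer, hsm⟩ := hPk.main (K := K) hk4 (q := Real.exp (η * Λ)) (ω := η * Λ) (ρ := ρ)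
    (R := R) (e₁ := ε / 2) (Real.exp_pos _).le (by positivity) hρ0.le hR hRρ hRe hl hwl hcK hh₁d hh₁b
    (hd8 _ le_rfl)
  have hbound := sum_bound (ℓ := ℓ) hR hε hΛ0 hρ0 hτ hPk.τA hρ2 hKlogq hKωρ hKη hk1
  refine ⟨u, hu0, hu1, ?_, fun S hS => (hzer S hS).trans hbound, ?_⟩
  · have h2 := hd8 (ε * Λ) (by linarith only [hεΛ])
    have h3 : Real.exp (-ε * Λ) * V ≤ Real.exp (-ε * Λ) * M :=
      mul_le_mul_of_nonneg_left hFM (Real.exp_pos _).le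
    have h4 : M / 8 * (8 * Real.exp (-(ε * Λ))) ≤ M / 8 * Real.exp (-(K * (η * Λ * ρ))) :=
      mul_le_mul_of_nonneg_left h2 (by positivity)
    have h5 : M / 8 * (8 * Real.exp (-(ε * Λ))) = Real.exp (-ε * Λ) * M := by
      rw [neg_mul]; ring
    linarith only [h3, h4, h5, hlow]
  · intro η₀ S hη₀ hRη hS hSF hsep
    have h1 := hsm (η₀ / Λ) (ε / 2) S (by positivity) (by
      have h2 : 6 * R / (η₀ / Λ) = 6 * (R / η₀) * Λ := by field_simp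
      have h3 : R / η₀ ≤ R₀ := by rw [div_le_iff₀ hη₀]; exact hRη
      have h4 : 6 * (R / η₀) * Λ ≤ 6 * R₀ * Λ :=
        mul_le_mul_of_nonneg_right (by linarith only [h3]) hΛ0.le
      have h5 : (R + ρ) * (A * Λ) ≤ 2 * (A * R) * Λ := by
        calc (R + ρ) * (A * Λ) = (R + ρ) * A * Λ := by ring
          _ ≤ _ := mul_le_mul_of_nonneg_right hAρ hΛ0.le
      have h6 : 2 * (A * R) * Λ ≤ ε / 8 * Λ := mul_le_mul_of_nonneg_right hAR hΛ0.le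
      have h7 : 6 * R₀ * Λ ≤ ε / 8 * Λ := by
        apply mul_le_mul_of_nonneg_right _ hΛ0.le
        have h8 : R₀ * (16 * (A + 6)) = 16 * (R₀ * A) + 96 * R₀ := by ring
        have h9 : 0 ≤ R₀ * A := by
          have : 0 ≤ R₀ := by linarith only [hR, hRle]
          positivity
        linarith only [h8, h9, hR₀3, hε]
      rw [h2]
      linarith only [h4, h5, h6, h7, hKωρ, hKη, hRεΛ, hk3]) hS (fun z hz => by
      refine (hSF z hz).trans ?_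
      calc Real.exp (-(ε / 2) * Λ) * V ≤ Real.exp (-(ε / 2) * Λ) * M :=
            mul_le_mul_of_nonneg_left hFM (Real.exp_pos _).le
        _ = _ := by rw [neg_mul]; ring) hsep
    linarith only [h1, hbound]

/-- coordinates -/
lemma transfer {Li h : ℂ → ℂ} {l : List ℂ} {c₀ K₀ : ℂ} {f : ℂ → ℂ} (hL : Differentiable ℂ Li)
    (hh : Differentiable ℂ h) (hK₀ : K₀ ≠ 0) (hcomp : ∀ z : ℂ, Li (c₀ + z) = K₀ * f z) :
    (∀ z : ℂ, Op l Li (c₀ + z) - h (c₀ + z) = K₀ * (Op l f z - K₀⁻¹ * h (c₀ + z))) ∧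
    ∀ s : ℂ, analyticOrderNatAt (fun z => Op l f z - K₀⁻¹ * h (c₀ + z)) (s - c₀) =
      analyticOrderNatAt (fun s => Op l Li s - h s) s := by
  have h1 : ∀ z : ℂ, Op l Li (c₀ + z) - h (c₀ + z) = K₀ * (Op l f z - K₀⁻¹ * h (c₀ + z)) := by
    intro z
    have hOp : Op l Li (c₀ + z) = K₀ * Op l f z := by
      rw [← op_shift, ← op_smul]
      congr 1
      funext z
      exact hcomp z
    rw [hOp, mul_sub, ← mul_assoc K₀ K₀⁻¹, mul_inv_cancel₀ hK₀, one_mul]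
  refine ⟨h1, fun s => ?_⟩
  have h2 := order_shift (F := fun s => Op l Li s - h s) ((op_diff hL l).sub hh) hK₀ h1 (s - c₀)
  rw [add_sub_cancel] at h2
  exact h2.symm

theorem law (H : Fam2 L X Q) (T : ι → ℝ) {w : ι → List ℂ} {h : ι → ℂ → ℂ} {κ : ℝ} (hκ : 0 ≤ κ)
    (hw : Tame (fun i => X i (T i)) w) (hh : SmallP T (fun i => X i (T i)) h κ)
    {ε : ℝ} (hε : 0 < ε) (hε1 : ε ≤ 1) :
    ∃ W R₀ : ℝ, 0 ≤ W ∧ 0 < R₀ ∧ R₀ ≤ 1 / 8 ∧ ∀ R ρ : ℝ, 0 < R → R ≤ R₀ → 0 < ρ →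
      ∃ X₁ : ℝ, 1 ≤ X₁ ∧ ∀ i, X₁ ≤ X i (T i) →
        X i (T i) ^ (κ + ε) ≤ ‖L i (1 / 2 + T i * Complex.I)‖ →
        0 < DL L T (fun i => X i (T i)) (fun i => Q i (T i)) i ε ∧
        ∃ T₀ u : ℝ, |T₀ - T i| ≤ W ∧
          ‖L i (1 / 2 + T i * Complex.I)‖ ≤ ‖L i (1 / 2 + T₀ * Complex.I)‖ ∧ 0 ≤ u ∧ u ≤ ρ ∧
          X i (T i) ^ (-ε) * ‖L i (1 / 2 + T i * Complex.I)‖ ≤
            ‖FF L w h i (1 / 2 + T₀ * Complex.I + u)‖ ∧
          (∀ S : Finset ℂ, (∀ s ∈ S, ‖s - (1 / 2 + T₀ * Complex.I + u)‖ ≤ R) →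
            ∑ s ∈ S, (analyticOrderNatAt (FF L w h i) s : ℝ) *
              Real.log (R / ‖s - (1 / 2 + T₀ * Complex.I + u)‖) ≤
            R / Real.pi * DL L T (fun i => X i (T i)) (fun i => Q i (T i)) i ε) ∧
          ∀ (η : ℝ) (S : Finset ℂ), 0 < η → R ≤ R₀ * η → η ≤ 1 →
            (∀ s ∈ S, ‖s - (1 / 2 + T₀ * Complex.I + u)‖ ≤ R) →
            (∀ s ∈ S, ‖FF L w h i s‖ ≤ X i (T i) ^ (-(ε / 2)) * ‖L i (1 / 2 + T i * Complex.I)‖) →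
            (∀ s ∈ S, ∀ s' ∈ S, s ≠ s' → η / Real.log (X i (T i)) ≤ |s.im - s'.im|) →
            ∑ s ∈ S, Real.log (R / ‖s - (1 / 2 + T₀ * Complex.I + u)‖) ≤
              R / Real.pi * DL L T (fun i => X i (T i)) (fun i => Q i (T i)) i ε + 1 := by
  classical
  obtain ⟨B, hB, hloc⟩ := H.loc
  obtain ⟨a, δ, W, A, ha, ha', hδ, hW, hA1, hpk⟩ := peak_pk (ε := ε) (B := B) hε hε1 hB
  obtain ⟨a₂, δ₂, W₂, ha₂, ha₂', hδ₂, hW₂, hcv⟩ :=
    convex_local (ε := ε / 8) (B := B) (by linarith) (by linarith) hB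
  obtain ⟨Λ₁, hΛ₁⟩ := hloc a δ W ha ha' hδ (by linarith)
  obtain ⟨Λ₂, hΛ₂⟩ := hloc a₂ δ₂ W₂ ha₂ ha₂' hδ₂ hW₂
  obtain ⟨⟨K, hK⟩, hw2⟩ := hw
  obtain ⟨hhd, hh2⟩ := hh
  obtain ⟨r₁, Xh, hr₁, hhb⟩ := hh2 (ε / 4) (W + 1) (by linarith)
  have hA0 : 0 < A := by linarith
  have hK0 : (0 : ℝ) ≤ K := Nat.cast_nonneg K
  set R₀ : ℝ := min (1 / 8) (min (r₁ / 2) (ε / (16 * (A + 6)))) with hR₀
  have hR₀0 : 0 < R₀ := lt_min (by norm_num) (lt_min (by linarith) (by positivity))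
  have hR₀1 : R₀ ≤ 1 / 8 := min_le_left _ _
  have hR₀2 : R₀ ≤ r₁ / 2 := (min_le_right _ _).trans (min_le_left _ _)
  have hR₀3 : R₀ * (16 * (A + 6)) ≤ ε := by
    have h1 : R₀ ≤ ε / (16 * (A + 6)) := (min_le_right _ _).trans (min_le_right _ _)
    rwa [le_div_iff₀ (by positivity)] at h1
  refine ⟨W, R₀, by linarith, hR₀0, hR₀1, fun R ρ hR hRle hρ => ?_⟩
  set ρ' : ℝ := min ρ (R * ε / (32 * A)) with hρ'
  have hρ'0 : 0 < ρ' := lt_min hρ (by positivity)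
  have hρ'1 : ρ' ≤ ρ := min_le_left _ _
  have hρ'2 : ρ' * (32 * A) ≤ R * ε := by
    have h1 : ρ' ≤ R * ε / (32 * A) := min_le_right _ _
    rwa [le_div_iff₀ (by positivity)] at h1
  have hρ'R : ρ' ≤ R := by
    have h1 : R * ε ≤ R * 1 := mul_le_mul_of_nonneg_left hε1 hR.le
    have h2 : ρ' * 1 ≤ ρ' * (32 * A) := mul_le_mul_of_nonneg_left (by linarith only [hA1]) hρ'0.le
    linarith only [h1, h2, hρ'2]
  set η' : ℝ := min (R * ε / (64 * (K + 1))) (ε * ρ' / (8 * (K + 1))) with hη'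
  have hη'0 : 0 < η' := lt_min (by positivity) (by positivity)
  have hη'1 : K * η' ≤ R * ε / 64 := by
    have h1 : η' ≤ R * ε / (64 * (K + 1)) := min_le_left _ _
    rw [le_div_iff₀ (by positivity)] at h1
    have h2 : K * η' ≤ (K + 1) * η' := mul_le_mul_of_nonneg_right (by linarith only []) hη'0.le
    linarith only [h1, h2]
  have hη'2 : K * η' ≤ ε * ρ' / 8 := by
    have h1 : η' ≤ ε * ρ' / (8 * (K + 1)) := min_le_right _ _
    rw [le_div_iff₀ (by positivity)] at h1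
    have h2 : K * η' ≤ (K + 1) * η' := mul_le_mul_of_nonneg_right (by linarith only []) hη'0.le
    linarith only [h1, h2]
  obtain ⟨Xw, hXw⟩ := hw2 η' hη'0
  set Cc : ℝ := 16 + 2 * A * K + 2 * K with hCc
  have hCc0 : 0 < Cc := by positivity
  set Λ₃ : ℝ := Cc / (R * ε / 32) + Cc / (ε * ρ' / 4) + 64 / ε + 4 * K + 2 / η' ^ 2 + 1 with hΛ₃
  refine ⟨Real.exp (|Λ₁| + |Λ₂| + Λ₃) + |Xw| + |Xh|, ?_, fun i hX hV => ?_⟩
  · have h0 : 1 ≤ Real.exp (|Λ₁| + |Λ₂| + Λ₃) := Real.one_le_exp (by positivity)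
    have h1 := abs_nonneg Xw
    have h2 := abs_nonneg Xh
    linarith only [h0, h1, h2]
  have hX1 := H.X1 i (T i)
  have hXp : 0 < X i (T i) := by linarith only [hX1]
  set x : ℝ := X i (T i) with hx
  set Λ : ℝ := Real.log x with hΛ
  set ℓ : ℝ := Real.log (Q i (T i)) with hℓ
  have hab3 := abs_nonneg Λ₁
  have hab4 := abs_nonneg Λ₂
  have hab7 := abs_nonneg Xw
  have hab8 := abs_nonneg Xh
  have hexp0 := Real.exp_pos (|Λ₁| + |Λ₂| + Λ₃)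
  have hΛb : |Λ₁| + |Λ₂| + Λ₃ ≤ Λ := by
    rw [hΛ, Real.le_log_iff_exp_le hXp]
    linarith only [hX, hab7, hab8]
  have hXwx : Xw ≤ x := by linarith only [hX, hab8, hexp0, le_abs_self Xw]
  have hXhx : Xh ≤ x := by linarith only [hX, hab7, hexp0, le_abs_self Xh]
  have ht1 : 0 < Cc / (R * ε / 32) := by positivity
  have ht2 : 0 < Cc / (ε * ρ' / 4) := by positivity
  have ht3 : 0 < 64 / ε := by positivity
  have ht4 : 0 < 2 / η' ^ 2 := by positivity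
  have hΛ3 : Λ₃ ≤ Λ := by linarith only [hΛb, hab3, hab4]
  have hΛ11 : Λ₁ ≤ Λ := by linarith only [hΛb, hab4, le_abs_self Λ₁, hΛ₃, ht1, ht2, ht3, ht4, hK0]
  have hΛ22 : Λ₂ ≤ Λ := by linarith only [hΛb, hab3, le_abs_self Λ₂, hΛ₃, ht1, ht2, ht3, ht4, hK0]
  have hΛ1 : 1 ≤ Λ := by linarith only [hΛ3, hΛ₃, ht1, ht2, ht3, ht4, hK0]
  have hΛ0 : 0 < Λ := by linarith only [hΛ1]
  have hk1 : Cc ≤ R * ε / 32 * Λ := by
    have h1 : Cc / (R * ε / 32) ≤ Λ := by linarith only [hΛ3, hΛ₃, ht2, ht3, ht4, hK0]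
    rw [div_le_iff₀ (by positivity)] at h1
    linarith only [h1]
  have hk2 : Cc ≤ ε * ρ' / 4 * Λ := by
    have h1 : Cc / (ε * ρ' / 4) ≤ Λ := by linarith only [hΛ3, hΛ₃, ht1, ht3, ht4, hK0]
    rw [div_le_iff₀ (by positivity)] at h1
    linarith only [h1]
  have hk3 : 64 ≤ ε * Λ := by
    have h1 : 64 / ε ≤ Λ := by linarith only [hΛ3, hΛ₃, ht1, ht2, ht4, hK0]
    rw [div_le_iff₀ hε] at h1
    linarith only [h1]
  have hk4 : 4 * (K : ℝ) ≤ Λ := by linarith only [hΛ3, hΛ₃, ht1, ht2, ht3, ht4]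
  have hk5 : Λ ≤ Real.exp (η' * Λ) := by
    have h1 : 2 / η' ^ 2 ≤ Λ := by linarith only [hΛ3, hΛ₃, ht1, ht2, ht3, hK0]
    rw [div_le_iff₀ (by positivity)] at h1
    have h2 := Real.quadratic_le_exp_of_nonneg (x := η' * Λ) (by positivity)
    have h3 : 2 * Λ ≤ Λ * η' ^ 2 * Λ := mul_le_mul_of_nonneg_right h1 hΛ0.le
    have h4 : (η' * Λ) ^ 2 = Λ * η' ^ 2 * Λ := by ring
    have h5 : 0 ≤ η' * Λ := by positivity
    linarith only [h2, h3, h4, h5]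
  set V : ℝ := ‖L i (1 / 2 + T i * Complex.I)‖ with hVd
  have hxpow : ∀ p : ℝ, x ^ p = Real.exp (p * Λ) := fun p => by
    rw [Real.rpow_def_of_pos hXp, mul_comm]
  have hVlow : Real.exp ((κ + ε) * Λ) ≤ V := by rw [← hxpow]; exact hV
  have hV0 : 0 < V := lt_of_lt_of_le (Real.exp_pos _) hVlow
  have hlV : (κ + ε) * Λ ≤ Real.log V := (Real.le_log_iff_exp_le hV0).2 hVlow
  have hκΛ : 0 ≤ κ * Λ := by positivity
  have hsh0 : ‖shf L i (T i) 0‖ = V := by rw [shf_zero]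
  have hcx := hcv _ _ _ hΛ0.le (hΛ₂ i (T i) hΛ22)
  rw [hsh0] at hcx
  have hcx' : Real.log V ≤ ε / 8 * Λ + ℓ / 4 := (Real.log_le_iff_le_exp hV0).2 hcx
  obtain ⟨y₀, M, τ, β, K₀, α, f, hy₀, hFM, hFy, hK₀, hKf, hPk, hτ⟩ :=
    hpk (shf L i (T i)) Λ ℓ hΛ1 (hΛ₁ i (T i) hΛ11) (by rw [hsh0]; linarith only [hlV, hκΛ])
      (by rw [hsh0]; exact hcx')
  rw [hsh0] at hFM hFy hτ
  have hK₀0 : K₀ ≠ 0 := by
    intro h0
    rw [h0, norm_zero] at hK₀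
    linarith only [hK₀]
  set c₀ : ℂ := 1 / 2 + ((T i + y₀ : ℝ) : ℂ) * Complex.I with hc₀
  have hcomp : ∀ z : ℂ, L i (c₀ + z) = K₀ * f z := by
    intro z
    rw [← hKf]
    unfold shf
    congr 1
    rw [hc₀]
    push_cast; ring
  obtain ⟨hFF, hord⟩ := transfer (l := w i) (H.diff i) (hhd i) hK₀0 hcomp
  have hh₁d : Differentiable ℂ (fun z => K₀⁻¹ * h i (c₀ + z)) :=
    ((hhd i).comp (by fun_prop)).const_mul _
  have hc₀re : c₀.re = 1 / 2 := by rw [hc₀]; simp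
  have hc₀im : c₀.im = T i + y₀ := by rw [hc₀]; simp
  have hyW : |y₀| ≤ W := by linarith only [hy₀]
  have hh₁b : ∀ z : ℂ, ‖z‖ ≤ R + ρ' → ‖K₀⁻¹ * h i (c₀ + z)‖ ≤ M * Real.exp (-(ε / 2 * Λ)) := by
    intro z hz
    have hz1 := Complex.abs_re_le_norm z
    have hz2 := Complex.abs_im_le_norm z
    have h1 := hhb i (c₀ + z) hXhx (by
      rw [Complex.add_re, hc₀re, add_sub_cancel_left]
      linarith only [hz1, hz, hρ'R, hRle, hR₀2]) (by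
      rw [Complex.add_im, hc₀im]
      have e : T i + y₀ + z.im - T i = y₀ + z.im := by ring
      rw [e]
      have := abs_add_le y₀ z.im
      linarith only [this, hz2, hz, hρ'R, hRle, hR₀1, hyW])
    have h2 : ‖K₀⁻¹ * h i (c₀ + z)‖ ≤ ‖h i (c₀ + z)‖ := by
      rw [norm_mul, norm_inv]
      have h3 : ‖K₀‖⁻¹ ≤ 1 := inv_le_one_of_one_le₀ hK₀
      calc ‖K₀‖⁻¹ * ‖h i (c₀ + z)‖ ≤ 1 * ‖h i (c₀ + z)‖ := mul_le_mul_of_nonneg_right h3 (norm_nonneg _)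
        _ = _ := one_mul _
    have h3 : ‖h i (c₀ + z)‖ ≤ Real.exp ((κ + ε / 4) * Λ) := by
      rw [← hxpow]; exact h1
    calc ‖K₀⁻¹ * h i (c₀ + z)‖ ≤ Real.exp ((κ + ε / 4) * Λ) := h2.trans h3
      _ ≤ Real.exp ((κ + ε) * Λ + -(ε / 2 * Λ)) := by
          apply Real.exp_le_exp.2
          have : 0 ≤ ε * Λ := by positivity
          linarith only [this, add_mul κ (ε / 4) Λ, add_mul κ ε Λ]
      _ = Real.exp ((κ + ε) * Λ) * Real.exp (-(ε / 2 * Λ)) := Real.exp_add _ _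
      _ ≤ M * Real.exp (-(ε / 2 * Λ)) :=
          mul_le_mul_of_nonneg_right (hVlow.trans hFM) (Real.exp_pos _).le
  have hwl : ∀ a ∈ w i, ‖a‖ ≤ Real.exp (η' * Λ) ∧ -(η' * Λ) ≤ a.re := by
    intro a ha
    have h1 := hXw i hXwx a ha
    simp only at h1
    rw [← hx, hxpow] at h1
    exact h1
  obtain ⟨u, hu0, hu1, hlow, hzer, hsm⟩ := core (ℓ := ℓ) hPk hε hA0 hR hRle hR₀1 hR₀3 hρ'0 hρ'R hρ'2
    hη'0 hη'1 hη'2 hk1 hk2 hk3 hk4 hk5 hV0 hFM hτ (hK i) hwl hh₁d hh₁b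
  have hcu : ∀ s : ℂ, s - (c₀ + (u : ℂ)) = (s - c₀) - u := fun s => by ring
  have hDL : DL L T (fun i => X i (T i)) (fun i => Q i (T i)) i ε = ℓ - 4 * Real.log V + ε * Λ := rfl
  rw [hDL]
  refine ⟨?_, T i + y₀, u, ?_, ?_, hu0, hu1.trans hρ'1, ?_, ?_, ?_⟩
  · have : 0 < ε * Λ := by positivity
    linarith only [this, hcx']
  · rw [add_sub_cancel_left]; exact hyW
  · refine hFy.trans (le_of_eq ?_)
    congr 1
    unfold shf
    congr 1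
    push_cast; ring
  · show x ^ (-ε) * V ≤ ‖Op (w i) (L i) (c₀ + u) - h i (c₀ + u)‖
    rw [hFF, norm_mul, hxpow]
    calc Real.exp (-ε * Λ) * V ≤ 1 * ‖Op (w i) f u - K₀⁻¹ * h i (c₀ + u)‖ := by rw [one_mul]; exact hlow
      _ ≤ _ := mul_le_mul_of_nonneg_right hK₀ (norm_nonneg _)
  · intro S hS
    have h1 := hzer (S.image (fun s => s - c₀)) (by
      intro z hz
      obtain ⟨s, hs, rfl⟩ := Finset.mem_image.1 hz
      rw [← hcu]
      exact hS s hs)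
    rw [Finset.sum_image (fun z _ w _ h => sub_left_injective h)] at h1
    refine le_trans (le_of_eq ?_) h1
    refine Finset.sum_congr rfl fun s _ => ?_
    rw [hord s, ← hcu]
    rfl
  · intro η S hη hRη _ hS hSF hsep
    have h1 := hsm η (S.image (fun s => s - c₀)) hη hRη (by
      intro z hz
      obtain ⟨s, hs, rfl⟩ := Finset.mem_image.1 hz
      rw [← hcu]
      exact hS s hs) (by
      intro z hz
      obtain ⟨s, hs, rfl⟩ := Finset.mem_image.1 hz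
      have h2 := hSF s hs
      have h3 := hFF (s - c₀)
      rw [add_sub_cancel] at h3
      unfold FF at h2
      rw [h3, norm_mul] at h2
      have h4 : ‖Op (w i) f (s - c₀) - K₀⁻¹ * h i s‖ ≤
          ‖K₀‖ * ‖Op (w i) f (s - c₀) - K₀⁻¹ * h i s‖ := le_mul_of_one_le_left (norm_nonneg _) hK₀
      rw [add_sub_cancel]
      refine h4.trans (h2.trans (le_of_eq ?_))
      show x ^ (-(ε / 2)) * V = _
      rw [hxpow]) (by
      intro z hz w hw hne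
      obtain ⟨s, hs, rfl⟩ := Finset.mem_image.1 hz
      obtain ⟨s', hs', rfl⟩ := Finset.mem_image.1 hw
      have h2 := hsep s hs s' hs' (fun h => hne (by rw [h]))
      have e : (s - c₀).im - (s' - c₀).im = s.im - s'.im := by
        rw [Complex.sub_im, Complex.sub_im]; ring
      rw [e]
      exact h2)
    rw [Finset.sum_image (fun z _ w _ h => sub_left_injective h)] at h1
    have h2 : ∑ s ∈ S, Real.log (R / ‖s - (c₀ + (u : ℂ))‖) =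
        ∑ s ∈ S, Real.log (R / ‖s - c₀ - (u : ℂ)‖) :=
      Finset.sum_congr rfl fun s _ => by rw [hcu]
    show ∑ s ∈ S, Real.log (R / ‖s - (c₀ + (u : ℂ))‖) ≤ _
    rw [h2]
    exact h1

end Pool.Agent.T2h09.LD
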