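import Mathlib
import Pool.Agent.T2h09.LD.Law
import Pool.Agent.TH804.MS3

/-!
Density criteria.
-/

set_option autoImplicit false

open Complex Filter Topology Metric Set
open W587.PL Pool.Agent.TH804.MS

set_option maxHeartbeats 4000000

namespace Pool.Agent.T2h09.LD

variable {ι : Type*} {L : ι → ℂ → ℂ} {X Q : ι → ℝ → ℝ}

/-- from large `x` to all `x` -/
lemma bound_of_large' (H : Fam2 L X Q) (T : ι → ℝ) {ε : ℝ} (hε : 0 ≤ ε) {M : ι → ℝ} (hM : ∀ i, 1 ≤ M i)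
    {X₃ : ℝ} (h : ∀ i : ι, X₃ ≤ X i (T i) → ‖L i (1 / 2 + T i * Complex.I)‖ ≤ X i (T i) ^ ε * M i) :
    ∃ B : ℝ, ∀ i : ι, ‖L i (1 / 2 + T i * Complex.I)‖ ≤ B * X i (T i) ^ ε * M i := by
  obtain ⟨CC, BC, hCC, hBC, hcr⟩ := H.crude
  refine ⟨1 + CC * (1 + |X₃|) ^ BC, fun i => ?_⟩
  have hX1 := H.X1 i (T i)
  have hXp : 0 < X i (T i) := by linarith
  have hXε : 1 ≤ X i (T i) ^ ε := Real.one_le_rpow hX1 hε
  have hMi := hM i
  have hBB : 1 ≤ 1 + CC * (1 + |X₃|) ^ BC := by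
    have : 0 ≤ CC * (1 + |X₃|) ^ BC := by positivity
    linarith
  rcases lt_or_ge (X i (T i)) X₃ with hs | hl
  · have h1 := hcr i (1 / 2 + T i * I) (by simp; norm_num)
    have e1 : ((1 / 2 : ℂ) + T i * I).im = T i := by simp
    rw [e1] at h1
    have h2 : X i (T i) ^ BC ≤ (1 + |X₃|) ^ BC :=
      Real.rpow_le_rpow hXp.le (by linarith [le_abs_self X₃]) hBC
    have h3 : CC * X i (T i) ^ BC ≤ CC * (1 + |X₃|) ^ BC := mul_le_mul_of_nonneg_left h2 hCC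
    have h4 : 1 + CC * (1 + |X₃|) ^ BC ≤ (1 + CC * (1 + |X₃|) ^ BC) * (X i (T i) ^ ε * M i) :=
      le_mul_of_one_le_right (by linarith) (one_le_mul_of_one_le_of_one_le hXε hMi)
    rw [mul_assoc]
    linarith
  · rw [mul_assoc]
    exact (h i hl).trans (le_mul_of_one_le_left (by positivity) hBB)

/-- the arithmetic at the end, for zeros -/
lemma fin_zeros {δ r n ν ε ε₂ ℓ Λ BQ LL lV : ℝ} (hδ0 : 0 ≤ δ) (hδ1 : δ ≤ 1) (hr : 0 < r) (hn : 0 < n)
    (hν0 : 0 < ν) (hν : ν * (1 + BQ) = ε) (hε₂ : 2 * Real.pi * ε₂ = ε) (hε : 0 < ε) (hε1 : ε ≤ 1) (hℓ0 : 0 ≤ ℓ)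
    (hℓ : ℓ ≤ BQ * Λ) (hΛ : 0 < Λ) (hl : 0 ≤ lV) (hLL : (1 - ν) * n ≤ LL) (hLL' : LL ≤ n)
    (h : 2 * ((1 - δ) * (r * ℓ / (2 * Real.pi)) - ε₂ * r * Λ) * LL ≤
      n * (r + ν * r) / Real.pi * (ℓ - 4 * lV + ε * Λ)) : lV ≤ ε * Λ + δ / 4 * ℓ := by
  have hpi := Real.pi_pos
  have hε₂0 : 0 < ε₂ := by
    by_contra hcon
    push Not at hcon
    have : 2 * Real.pi * ε₂ ≤ 0 := mul_nonpos_of_nonneg_of_nonpos (by positivity) hcon
    linarith
  have h1δ : 0 ≤ 1 - δ := by linarith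
  have h1 : (1 - δ) * (r * ℓ / Real.pi) * ((1 - ν) * n) ≤ (1 - δ) * (r * ℓ / Real.pi) * LL :=
    mul_le_mul_of_nonneg_left hLL (by positivity)
  have h2 : 2 * ε₂ * r * Λ * LL ≤ 2 * ε₂ * r * Λ * n := mul_le_mul_of_nonneg_left hLL' (by positivity)
  have h3 : 2 * ((1 - δ) * (r * ℓ / (2 * Real.pi)) - ε₂ * r * Λ) * LL =
      (1 - δ) * (r * ℓ / Real.pi) * LL - 2 * ε₂ * r * Λ * LL := by field_simp
  rw [h3] at h
  have h4 : r * n / Real.pi * ((1 - δ) * (1 - ν) * ℓ - 2 * Real.pi * ε₂ * Λ) ≤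
      r * n / Real.pi * ((1 + ν) * (ℓ - 4 * lV + ε * Λ)) := by
    have e1 : r * n / Real.pi * ((1 - δ) * (1 - ν) * ℓ - 2 * Real.pi * ε₂ * Λ) =
        (1 - δ) * (r * ℓ / Real.pi) * ((1 - ν) * n) - 2 * ε₂ * r * Λ * n := by field_simp
    have e2 : r * n / Real.pi * ((1 + ν) * (ℓ - 4 * lV + ε * Λ)) =
        n * (r + ν * r) / Real.pi * (ℓ - 4 * lV + ε * Λ) := by ring
    rw [e1, e2]
    linarith
  have h5 := le_of_mul_le_mul_left h4 (by positivity)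
  rw [hε₂] at h5
  have h6 : ν * (ℓ - 4 * lV + ε * Λ) ≤ ε * Λ := by
    have h7 : ℓ - 4 * lV + ε * Λ ≤ (1 + BQ) * Λ := by
      have : ε * Λ ≤ 1 * Λ := mul_le_mul_of_nonneg_right hε1 hΛ.le
      linarith
    calc ν * (ℓ - 4 * lV + ε * Λ) ≤ ν * ((1 + BQ) * Λ) := mul_le_mul_of_nonneg_left h7 hν0.le
      _ = ε * Λ := by rw [← mul_assoc, hν]
  have h7 : (1 - δ) * ν * ℓ ≤ ε * Λ := by
    have h8 : ℓ ≤ (1 + BQ) * Λ := by linarith
    calc (1 - δ) * ν * ℓ ≤ 1 * ν * ℓ := by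
          apply mul_le_mul_of_nonneg_right _ hℓ0
          exact mul_le_mul_of_nonneg_right (by linarith) hν0.le
      _ = ν * ℓ := by ring
      _ ≤ ν * ((1 + BQ) * Λ) := mul_le_mul_of_nonneg_left h8 hν0.le
      _ = ε * Λ := by rw [← mul_assoc, hν]
  have h8 : (1 - δ) * (1 - ν) * ℓ = ℓ - δ * ℓ - (1 - δ) * ν * ℓ := by ring
  have h9 : (1 + ν) * (ℓ - 4 * lV + ε * Λ) = (ℓ - 4 * lV + ε * Λ) + ν * (ℓ - 4 * lV + ε * Λ) := by ring
  rw [h8, h9] at h5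
  linarith

/-- the arithmetic at the end, for small values -/
lemma fin_dense {θ r n ν ε ε₂ ℓ Λ BQ LL lV : ℝ} (hθ : 0 < θ) (hr : 0 < r) (hn : 1 ≤ n)
    (hν0 : 0 < ν) (hν : ν * (1 + BQ) ≤ ε) (hνθ : ν / θ * (1 + BQ) ≤ ε) (hε₂0 : 0 ≤ ε₂) (hε₂ : 2 * Real.pi * ε₂ ≤ ε)
    (hε1 : ε ≤ 1) (hℓ0 : 0 ≤ ℓ)
    (hℓ : ℓ ≤ BQ * Λ) (hΛ : 0 < Λ) (hl : 0 ≤ lV) (hLL : (1 - ν) * n ≤ LL) (hLL' : LL ≤ n)
    (hbig : 5 * Real.pi / r ≤ ε * Λ)
    (h : 2 * (r * ℓ / (2 * Real.pi * θ) - ε₂ * r * Λ - 2) * LL ≤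
      n * (r + ν * r) / Real.pi * (ℓ - 4 * lV + ε * Λ) + 1) : lV ≤ 5 / 4 * ε * Λ + (1 - 1 / θ) / 4 * ℓ := by
  have hpi := Real.pi_pos
  have hn0 : 0 < n := by linarith
  have h1 : r * ℓ / (Real.pi * θ) * ((1 - ν) * n) ≤ r * ℓ / (Real.pi * θ) * LL :=
    mul_le_mul_of_nonneg_left hLL (by positivity)
  have h2 : (2 * ε₂ * r * Λ + 4) * LL ≤ (2 * ε₂ * r * Λ + 4) * n :=
    mul_le_mul_of_nonneg_left hLL' (by positivity)
  have h3 : 2 * (r * ℓ / (2 * Real.pi * θ) - ε₂ * r * Λ - 2) * LL =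
      r * ℓ / (Real.pi * θ) * LL - (2 * ε₂ * r * Λ + 4) * LL := by field_simp; ring
  rw [h3] at h
  have h4 : r * n / Real.pi * ((1 - ν) / θ * ℓ - 2 * Real.pi * ε₂ * Λ - 5 * Real.pi / r) ≤
      r * n / Real.pi * ((1 + ν) * (ℓ - 4 * lV + ε * Λ)) := by
    have e1 : r * n / Real.pi * ((1 - ν) / θ * ℓ - 2 * Real.pi * ε₂ * Λ - 5 * Real.pi / r) =
        r * ℓ / (Real.pi * θ) * ((1 - ν) * n) - (2 * ε₂ * r * Λ + 4) * n - n := by field_simp; ring
    have e2 : r * n / Real.pi * ((1 + ν) * (ℓ - 4 * lV + ε * Λ)) =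
        n * (r + ν * r) / Real.pi * (ℓ - 4 * lV + ε * Λ) := by ring
    rw [e1, e2]
    linarith
  have h5 := le_of_mul_le_mul_left h4 (by positivity)
  have hε0 : 0 ≤ ε := le_trans (by positivity) hε₂
  have hεΛ : 2 * Real.pi * ε₂ * Λ ≤ ε * Λ := mul_le_mul_of_nonneg_right hε₂ hΛ.le
  have h6 : ν * (ℓ - 4 * lV + ε * Λ) ≤ ε * Λ := by
    have h7 : ℓ - 4 * lV + ε * Λ ≤ (1 + BQ) * Λ := by
      have : ε * Λ ≤ 1 * Λ := mul_le_mul_of_nonneg_right hε1 hΛ.le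
      linarith
    calc ν * (ℓ - 4 * lV + ε * Λ) ≤ ν * ((1 + BQ) * Λ) := mul_le_mul_of_nonneg_left h7 hν0.le
      _ = ν * (1 + BQ) * Λ := by ring
      _ ≤ ε * Λ := mul_le_mul_of_nonneg_right hν hΛ.le
  have h7 : ν / θ * ℓ ≤ ε * Λ := by
    have h8 : ℓ ≤ (1 + BQ) * Λ := by linarith
    calc ν / θ * ℓ ≤ ν / θ * ((1 + BQ) * Λ) := mul_le_mul_of_nonneg_left h8 (by positivity)
      _ = ν / θ * (1 + BQ) * Λ := by ring
      _ ≤ ε * Λ := mul_le_mul_of_nonneg_right hνθ hΛ.le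
  have h8 : (1 - ν) / θ * ℓ = 1 / θ * ℓ - ν / θ * ℓ := by ring
  have h9 : (1 + ν) * (ℓ - 4 * lV + ε * Λ) = (ℓ - 4 * lV + ε * Λ) + ν * (ℓ - 4 * lV + ε * Λ) := by ring
  rw [h8, h9] at h5
  linarith

/-- **zeros near the critical line** -/
theorem bound_of_zeros (H : Fam2 L X Q) (T : ι → ℝ) {w : ι → List ℂ} {h : ι → ℂ → ℂ} {κ : ℝ} (hκ : 0 ≤ κ)
    (hw : Tame (fun i => X i (T i)) w) (hh : SmallP T (fun i => X i (T i)) h κ)
    {δ : ℝ} (hδ0 : 0 ≤ δ) (hδ1 : δ ≤ 1)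
    (hD : ZeroDense (FF L w h) T (fun i => X i (T i)) (fun i => Q i (T i)) δ) {ε' : ℝ} (hε' : 0 < ε') :
    ∃ B : ℝ, ∀ i : ι, ‖L i (1 / 2 + T i * Complex.I)‖ ≤
      B * X i (T i) ^ ε' * max (X i (T i) ^ κ) (Q i (T i) ^ (δ / 4)) := by
  classical
  have hpi := Real.pi_pos
  obtain ⟨BQ, hBQ, hQX⟩ := H.QX
  set ε : ℝ := min (ε' / 4) 1 with hεd
  have hε0 : 0 < ε := lt_min (by linarith) one_pos
  have hε1 : ε ≤ 1 := min_le_right _ _
  have hεε' : ε ≤ ε' := (min_le_left _ _).trans (by linarith)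
  obtain ⟨W, R₀, hW, hR₀, hR₀1, hlw⟩ := law H T hκ hw hh hε0 hε1
  set ν : ℝ := ε / (1 + BQ) with hν
  have hν0 : 0 < ν := by positivity
  have hνe : ν * (1 + BQ) = ε := by rw [hν]; field_simp
  have hν1 : ν ≤ 1 := by
    have : ν * 1 ≤ ν * (1 + BQ) := mul_le_mul_of_nonneg_left (by linarith) hν0.le
    linarith
  obtain ⟨n, hn2, hnL⟩ := exists_LL hν0
  have hn0 : (0:ℝ) < n := by
    have : (2:ℝ) ≤ n := by exact_mod_cast hn2
    linarith
  obtain ⟨r, X₂, hr, hrle, hS⟩ := hD (ε / (2 * Real.pi)) (by positivity) (W + 1) (R₀ / (2 * n)) (by positivity)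
  set rp : ℝ := r + ν * r with hrp
  have hrp0 : 0 < rp := by positivity
  have hrp2 : rp ≤ 2 * r := by
    have : ν * r ≤ 1 * r := mul_le_mul_of_nonneg_right hν1 hr.le
    linarith
  set R : ℝ := n * rp with hR
  have hR0 : 0 < R := by positivity
  have hRle : R ≤ R₀ := by
    rw [le_div_iff₀ (by positivity)] at hrle
    calc R ≤ n * (2 * r) := mul_le_mul_of_nonneg_left hrp2 hn0.le
      _ = r * (2 * n) := by ring
      _ ≤ R₀ := hrle
  obtain ⟨X₁, hX₁, hl1⟩ := hlw R (ν * r) hR0 hRle (by positivity)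
  refine bound_of_large' H T hε'.le (M := fun i => max (X i (T i) ^ κ) (Q i (T i) ^ (δ / 4)))
    (fun i => (Real.one_le_rpow (H.X1 i (T i)) hκ).trans (le_max_left _ _))
    (X₃ := X₁ + |X₂| + Real.exp 1) fun i hX => ?_
  have hX1 := H.X1 i (T i)
  have hXp : 0 < X i (T i) := by linarith
  have hQ1 := H.Q1 i (T i)
  have hQp : 0 < Q i (T i) := by linarith
  have hab1 := le_abs_self X₂
  have hab2 := abs_nonneg X₂
  have hexp := Real.exp_pos 1
  have hΛ0 : 0 < Real.log (X i (T i)) := by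
    have : 1 ≤ Real.log (X i (T i)) := by
      rw [Real.le_log_iff_exp_le hXp]; linarith
    linarith
  have hℓ0 : 0 ≤ Real.log (Q i (T i)) := Real.log_nonneg hQ1
  have hℓB : Real.log (Q i (T i)) ≤ BQ * Real.log (X i (T i)) := by
    have h1 := Real.log_le_log hQp (hQX i (T i))
    rwa [Real.log_rpow hXp] at h1
  show ‖L i (1 / 2 + T i * Complex.I)‖ ≤ X i (T i) ^ ε' * max (X i (T i) ^ κ) (Q i (T i) ^ (δ / 4))
  rcases le_or_gt ‖L i (1 / 2 + T i * Complex.I)‖ (X i (T i) ^ (κ + ε')) with hVs | hVl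
  · refine hVs.trans ?_
    rw [add_comm, Real.rpow_add hXp]
    exact mul_le_mul_of_nonneg_left (le_max_left _ _) (by positivity)
  have hV1 : 1 ≤ ‖L i (1 / 2 + T i * Complex.I)‖ := (Real.one_le_rpow hX1 (by linarith)).trans hVl.le
  have hV0 : 0 < ‖L i (1 / 2 + T i * Complex.I)‖ := by linarith
  obtain ⟨-, T₀, u, hT₀, -, hu0, hu1, hFu, hzer, -⟩ := hl1 i (by linarith)
    ((Real.rpow_le_rpow_of_exponent_le hX1 (by linarith)).trans hVl.le)
  set V : ℝ := ‖L i (1 / 2 + T i * Complex.I)‖ with hV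
  set F : ℂ → ℂ := FF L w h i with hF
  set wt : ℂ → ℝ := fun s => (analyticOrderNatAt F (s + u) : ℝ) with hwt
  have hw0 : wt (1 / 2 + T₀ * Complex.I) = 0 := by
    have h1 : F (1 / 2 + T₀ * Complex.I + u) ≠ 0 := by
      intro h
      rw [h, norm_zero] at hFu
      have h2 : 0 < X i (T i) ^ (-ε) * V := by positivity
      linarith
    by_contra h2
    exact h1 (apply_eq_zero_of_analyticOrderNatAt_ne_zero (by
      rw [hwt] at h2
      simp only at h2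
      exact_mod_cast h2))
  -- windows
  have hwin : ∀ k : ℤ, -(n : ℤ) ≤ k → k ≤ n → ∃ A : Finset ℂ,
      (∀ s ∈ A, |s.re - 1 / 2| ≤ rp ∧ T₀ + k * rp ≤ s.im ∧ s.im < T₀ + k * rp + rp) ∧
      (1 - δ) * (r * Real.log (Q i (T i)) / (2 * Real.pi)) -
        ε / (2 * Real.pi) * r * Real.log (X i (T i)) ≤ ∑ s ∈ A, wt s := by
    intro k hk1 hk2
    have hk1' : -(n:ℝ) ≤ k := by exact_mod_cast hk1
    have hk2' : (k:ℝ) ≤ n := by exact_mod_cast hk2
    have hkr1 : -R ≤ k * rp := by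
      have := mul_le_mul_of_nonneg_right hk1' hrp0.le
      rw [hR]; linarith
    have hkr2 : k * rp ≤ R := mul_le_mul_of_nonneg_right hk2' hrp0.le
    have hTT : |T₀ + k * rp - T i| ≤ W + 1 := by
      have h1 : |(k:ℝ) * rp| ≤ R := abs_le.2 ⟨hkr1, hkr2⟩
      have h2 : T₀ + k * rp - T i = (T₀ - T i) + k * rp := by ring
      rw [h2]
      have := abs_add_le (T₀ - T i) (k * rp)
      linarith
    obtain ⟨A, hA1, hA3⟩ := hS i (T₀ + k * rp) (by show X₂ ≤ X i (T i); linarith) hTT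
    refine ⟨A.image (fun s => s - (u : ℂ)), fun s' hs' => ?_, ?_⟩
    · obtain ⟨s, hs, rfl⟩ := Finset.mem_image.1 hs'
      obtain ⟨h1, h2, h3⟩ := hA1 s hs
      have e1 : (s - (u : ℂ)).re - 1 / 2 = (s.re - 1 / 2) - u := by
        rw [Complex.sub_re, Complex.ofReal_re]; ring
      have e2 : (s - (u : ℂ)).im = s.im := by simp
      rw [e1, e2]
      refine ⟨?_, h2, by rw [hrp]; linarith [mul_pos hν0 hr]⟩
      have h4 := abs_sub (s.re - 1 / 2) u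
      rw [abs_of_nonneg hu0] at h4
      rw [hrp]; linarith
    · rw [Finset.sum_image (fun z _ w _ h => sub_left_injective h)]
      have h1 : ∑ s ∈ A, wt (s - u) = ∑ s ∈ A, (analyticOrderNatAt F s : ℝ) :=
        Finset.sum_congr rfl fun s _ => by rw [hwt]; simp only [sub_add_cancel]
      rw [h1]
      simp only at hA3
      linarith
  obtain ⟨S, hS1, hS3⟩ := assembleZ (n := n) hrp0 wt (fun s => Nat.cast_nonneg _) hw0 hwin
  have hl := hzer (S.image (fun s => s + (u : ℂ))) (by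
    intro s' hs'
    obtain ⟨s, hs, rfl⟩ := Finset.mem_image.1 hs'
    have e : s + (u : ℂ) - (1 / 2 + T₀ * Complex.I + u) = s - (1 / 2 + T₀ * Complex.I) := by ring
    rw [e]
    exact hS1 s hs)
  rw [Finset.sum_image (fun z _ w _ h => add_left_injective (u : ℂ) h)] at hl
  have hl2 : ∑ s ∈ S, wt s * Real.log (n * rp / ‖s - (1 / 2 + T₀ * Complex.I)‖) =
      ∑ s ∈ S, (analyticOrderNatAt F (s + u) : ℝ) *
        Real.log (R / ‖s + (u : ℂ) - (1 / 2 + T₀ * Complex.I + u)‖) := by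
    refine Finset.sum_congr rfl fun s _ => ?_
    have e : s + (u : ℂ) - (1 / 2 + T₀ * Complex.I + u) = s - (1 / 2 + T₀ * Complex.I) := by ring
    rw [e]
  rw [hl2] at hS3
  have hmain := hS3.trans hl
  have hlV : Real.log V ≤ ε * Real.log (X i (T i)) + δ / 4 * Real.log (Q i (T i)) :=
    fin_zeros hδ0 hδ1 hr hn0 hν0 hνe (by field_simp) hε0 hε1 hℓ0 hℓB hΛ0 (Real.log_nonneg hV1) hnL
      (LL_le (by omega)) hmain
  have hlV' : Real.log V ≤ ε' * Real.log (X i (T i)) + δ / 4 * Real.log (Q i (T i)) := by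
    have := mul_le_mul_of_nonneg_right hεε' hΛ0.le
    linarith
  calc V ≤ Real.exp (ε' * Real.log (X i (T i)) + δ / 4 * Real.log (Q i (T i))) :=
        (Real.log_le_iff_le_exp hV0).1 hlV'
    _ = X i (T i) ^ ε' * Q i (T i) ^ (δ / 4) := by
        rw [Real.exp_add, Real.rpow_def_of_pos hXp, Real.rpow_def_of_pos hQp]
        congr 2 <;> ring
    _ ≤ _ := mul_le_mul_of_nonneg_left (le_max_right _ _) (by positivity)

/-- **small values near the critical line** -/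
theorem bound_of_dense (H : Fam2 L X Q) (T : ι → ℝ) {w : ι → List ℂ} {h : ι → ℂ → ℂ} {κ : ℝ} (hκ : 0 ≤ κ)
    (hw : Tame (fun i => X i (T i)) w) (hh : SmallP T (fun i => X i (T i)) h κ)
    {θ : ℝ} (hθ : 0 < θ)
    (hD : Dense (FF L w h) T (fun i => X i (T i)) (fun i => Q i (T i)) θ κ) {ε' : ℝ} (hε' : 0 < ε') :
    ∃ B : ℝ, ∀ i : ι, ‖L i (1 / 2 + T i * Complex.I)‖ ≤
      B * X i (T i) ^ ε' * max (X i (T i) ^ κ) (Q i (T i) ^ ((1 - 1 / θ) / 4)) := by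
  classical
  have hpi := Real.pi_pos
  obtain ⟨BQ, hBQ, hQX⟩ := H.QX
  set ε : ℝ := min (ε' / 4) 1 with hεd
  have hε0 : 0 < ε := lt_min (by linarith) one_pos
  have hε1 : ε ≤ 1 := min_le_right _ _
  have hεε' : 4 * ε ≤ ε' := by
    have : ε ≤ ε' / 4 := min_le_left _ _
    linarith
  obtain ⟨W, R₀, hW, hR₀, hR₀1, hlw⟩ := law H T hκ hw hh hε0 hε1
  set m : ℝ := min θ 1 with hm
  have hm0 : 0 < m := lt_min hθ one_pos
  have hm1 : m ≤ 1 := min_le_right _ _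
  have hmθ : m ≤ θ := min_le_left _ _
  set ν : ℝ := ε * m / (1 + BQ) with hν
  have hν0 : 0 < ν := by positivity
  have hνe : ν * (1 + BQ) = ε * m := by rw [hν]; field_simp
  have hνe1 : ν * (1 + BQ) ≤ ε := by
    rw [hνe]
    calc ε * m ≤ ε * 1 := mul_le_mul_of_nonneg_left hm1 hε0.le
      _ = ε := mul_one _
  have hνe2 : ν / θ * (1 + BQ) ≤ ε := by
    have e : ν / θ * (1 + BQ) = ε * m / θ := by rw [← hνe]; ring
    rw [e, div_le_iff₀ hθ]
    exact mul_le_mul_of_nonneg_left hmθ hε0.le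
  have hν1 : ν ≤ 1 := by
    have : ν * 1 ≤ ν * (1 + BQ) := mul_le_mul_of_nonneg_left (by linarith) hν0.le
    linarith
  obtain ⟨n, hn2, hnL⟩ := exists_LL hν0
  have hn1 : (1:ℝ) ≤ n := by
    have : (2:ℝ) ≤ n := by exact_mod_cast hn2
    linarith
  have hn0 : (0:ℝ) < n := by linarith
  set ε₂ : ℝ := ε / (2 * Real.pi) with hε₂
  have hε₂0 : 0 < ε₂ := by positivity
  have hε₂1 : 2 * Real.pi * ε₂ = ε := by rw [hε₂]; field_simp
  have hε₂2 : ε₂ ≤ ε / 2 := by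
    have h3 := Real.pi_gt_three
    have : 1 * ε₂ ≤ Real.pi * ε₂ := mul_le_mul_of_nonneg_right (by linarith) hε₂0.le
    linarith
  obtain ⟨η, hη, hD2⟩ := hD ε₂ hε₂0
  set η' : ℝ := min η 1 with hη'
  have hη'0 : 0 < η' := lt_min hη one_pos
  have hη'1 : η' ≤ 1 := min_le_right _ _
  have hη'2 : η' ≤ η := min_le_left _ _
  obtain ⟨r, X₂, hr, hrle, hS⟩ := hD2 (W + 1) (R₀ * η' / (2 * n)) (by positivity)
  set rp : ℝ := r + ν * r with hrp
  have hrp0 : 0 < rp := by positivity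
  have hrp2 : rp ≤ 2 * r := by
    have : ν * r ≤ 1 * r := mul_le_mul_of_nonneg_right hν1 hr.le
    linarith
  set R : ℝ := n * rp with hR
  have hR0 : 0 < R := by positivity
  have hRη : R ≤ R₀ * η' := by
    rw [le_div_iff₀ (by positivity)] at hrle
    calc R ≤ n * (2 * r) := mul_le_mul_of_nonneg_left hrp2 hn0.le
      _ = r * (2 * n) := by ring
      _ ≤ R₀ * η' := hrle
  have hRle : R ≤ R₀ := by
    refine hRη.trans ?_
    calc R₀ * η' ≤ R₀ * 1 := mul_le_mul_of_nonneg_left hη'1 hR₀.le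
      _ = R₀ := mul_one _
  obtain ⟨X₁, hX₁, hl1⟩ := hlw R (ν * r) hR0 hRle (by positivity)
  refine bound_of_large' H T hε'.le (M := fun i => max (X i (T i) ^ κ) (Q i (T i) ^ ((1 - 1 / θ) / 4)))
    (fun i => (Real.one_le_rpow (H.X1 i (T i)) hκ).trans (le_max_left _ _))
    (X₃ := X₁ + |X₂| + Real.exp (5 * Real.pi / r / ε + 1)) fun i hX => ?_
  have hX1 := H.X1 i (T i)
  have hXp : 0 < X i (T i) := by linarith
  have hQ1 := H.Q1 i (T i)
  have hQp : 0 < Q i (T i) := by linarith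
  have hab1 := le_abs_self X₂
  have hab2 := abs_nonneg X₂
  have hexp := Real.exp_pos (5 * Real.pi / r / ε + 1)
  have hΛ1 : 5 * Real.pi / r / ε + 1 ≤ Real.log (X i (T i)) := by
    rw [Real.le_log_iff_exp_le hXp]; linarith
  have hbig0 : 0 < 5 * Real.pi / r / ε := by positivity
  have hΛ0 : 0 < Real.log (X i (T i)) := by linarith
  have hbig : 5 * Real.pi / r ≤ ε * Real.log (X i (T i)) := by
    have h1 : 5 * Real.pi / r / ε ≤ Real.log (X i (T i)) := by linarith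
    rw [div_le_iff₀ hε0] at h1
    linarith
  have hℓ0 : 0 ≤ Real.log (Q i (T i)) := Real.log_nonneg hQ1
  have hℓB : Real.log (Q i (T i)) ≤ BQ * Real.log (X i (T i)) := by
    have h1 := Real.log_le_log hQp (hQX i (T i))
    rwa [Real.log_rpow hXp] at h1
  show ‖L i (1 / 2 + T i * Complex.I)‖ ≤
    X i (T i) ^ ε' * max (X i (T i) ^ κ) (Q i (T i) ^ ((1 - 1 / θ) / 4))
  rcases le_or_gt ‖L i (1 / 2 + T i * Complex.I)‖ (X i (T i) ^ (κ + ε')) with hVs | hVl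
  · refine hVs.trans ?_
    rw [add_comm, Real.rpow_add hXp]
    exact mul_le_mul_of_nonneg_left (le_max_left _ _) (by positivity)
  have hV1 : 1 ≤ ‖L i (1 / 2 + T i * Complex.I)‖ := (Real.one_le_rpow hX1 (by linarith)).trans hVl.le
  have hV0 : 0 < ‖L i (1 / 2 + T i * Complex.I)‖ := by linarith
  obtain ⟨-, T₀, u, hT₀, -, hu0, hu1, -, -, hsm⟩ := hl1 i (by linarith)
    ((Real.rpow_le_rpow_of_exponent_le hX1 (by linarith)).trans hVl.le)
  set V : ℝ := ‖L i (1 / 2 + T i * Complex.I)‖ with hV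
  set F : ℂ → ℂ := FF L w h i with hF
  have hval : X i (T i) ^ (κ + ε₂) ≤ X i (T i) ^ (-(ε / 2)) * V := by
    calc X i (T i) ^ (κ + ε₂) ≤ X i (T i) ^ (-(ε / 2) + (κ + ε')) :=
          Real.rpow_le_rpow_of_exponent_le hX1 (by linarith)
      _ = X i (T i) ^ (-(ε / 2)) * X i (T i) ^ (κ + ε') := Real.rpow_add hXp _ _
      _ ≤ _ := mul_le_mul_of_nonneg_left hVl.le (by positivity)
  -- windows
  have hwin : ∀ k : ℤ, -(n : ℤ) ≤ k → k ≤ n → ∃ A : Finset ℂ,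
      (∀ s ∈ A, |s.re - 1 / 2| ≤ rp ∧ T₀ + k * rp ≤ s.im ∧ s.im ≤ T₀ + k * rp + rp ∧
        ‖F (s + u)‖ ≤ X i (T i) ^ (-(ε / 2)) * V) ∧
      (∀ s ∈ A, ∀ s' ∈ A, s ≠ s' → 2 * (η' / Real.log (X i (T i)) / 2) ≤ |s.im - s'.im|) ∧
      r * Real.log (Q i (T i)) / (2 * Real.pi * θ) - ε₂ * r * Real.log (X i (T i)) ≤ A.card := by
    intro k hk1 hk2
    have hk1' : -(n:ℝ) ≤ k := by exact_mod_cast hk1
    have hk2' : (k:ℝ) ≤ n := by exact_mod_cast hk2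
    have hkr1 : -R ≤ k * rp := by
      have := mul_le_mul_of_nonneg_right hk1' hrp0.le
      rw [hR]; linarith
    have hkr2 : k * rp ≤ R := mul_le_mul_of_nonneg_right hk2' hrp0.le
    have hTT : |T₀ + k * rp - T i| ≤ W + 1 := by
      have h1 : |(k:ℝ) * rp| ≤ R := abs_le.2 ⟨hkr1, hkr2⟩
      have h2 : T₀ + k * rp - T i = (T₀ - T i) + k * rp := by ring
      rw [h2]
      have := abs_add_le (T₀ - T i) (k * rp)
      linarith
    obtain ⟨A, hA1, hA2, hA3⟩ := hS i (T₀ + k * rp) (by show X₂ ≤ X i (T i); linarith) hTT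
    refine ⟨A.image (fun s => s - (u : ℂ)), fun s' hs' => ?_, fun s' hs' t' ht' hne => ?_, ?_⟩
    · obtain ⟨s, hs, rfl⟩ := Finset.mem_image.1 hs'
      obtain ⟨h1, h2, h3, h5⟩ := hA1 s hs
      have e1 : (s - (u : ℂ)).re - 1 / 2 = (s.re - 1 / 2) - u := by
        rw [Complex.sub_re, Complex.ofReal_re]; ring
      have e2 : (s - (u : ℂ)).im = s.im := by simp
      rw [e1, e2, sub_add_cancel]
      refine ⟨?_, h2, by rw [hrp]; linarith [mul_pos hν0 hr], h5.trans hval⟩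
      have h4 := abs_sub (s.re - 1 / 2) u
      rw [abs_of_nonneg hu0] at h4
      rw [hrp]; linarith
    · obtain ⟨s, hs, rfl⟩ := Finset.mem_image.1 hs'
      obtain ⟨t, ht, rfl⟩ := Finset.mem_image.1 ht'
      have h1 := hA2 s hs t ht (fun h => hne (by rw [h]))
      have e1 : (s - (u : ℂ)).im - (t - (u : ℂ)).im = s.im - t.im := by simp
      rw [e1]
      refine le_trans ?_ h1
      have e2 : 2 * (η' / Real.log (X i (T i)) / 2) = η' / Real.log (X i (T i)) := by ring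
      rw [e2]
      exact div_le_div_of_nonneg_right hη'2 hΛ0.le
    · rw [Finset.card_image_of_injective _ sub_left_injective]
      simp only at hA3
      linarith
  obtain ⟨S, hS1, hS2, hS3⟩ := assemble (n := n) hrp0 (d := η' / Real.log (X i (T i)) / 2) (by positivity)
    (fun s => ‖F (s + u)‖ ≤ X i (T i) ^ (-(ε / 2)) * V) hwin
  have hl := hsm η' (S.image (fun s => s + (u : ℂ))) hη'0 hRη hη'1 (by
      intro s' hs'
      obtain ⟨s, hs, rfl⟩ := Finset.mem_image.1 hs'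
      have e : s + (u : ℂ) - (1 / 2 + T₀ * Complex.I + u) = s - (1 / 2 + T₀ * Complex.I) := by ring
      rw [e]
      exact (hS1 s hs).2) (by
      intro s' hs'
      obtain ⟨s, hs, rfl⟩ := Finset.mem_image.1 hs'
      exact (hS1 s hs).1) (by
      intro s' hs' t' ht' hne
      obtain ⟨s, hs, rfl⟩ := Finset.mem_image.1 hs'
      obtain ⟨t, ht, rfl⟩ := Finset.mem_image.1 ht'
      have h1 := hS2 s hs t ht (fun h => hne (by rw [h]))
      have e1 : (s + (u : ℂ)).im - (t + (u : ℂ)).im = s.im - t.im := by simp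
      rw [e1]
      refine le_trans (le_of_eq ?_) h1
      ring)
  rw [Finset.sum_image (fun z _ w _ h => add_left_injective (u : ℂ) h)] at hl
  have hl2 : ∑ s ∈ S, Real.log (n * rp / ‖s - (1 / 2 + T₀ * Complex.I)‖) =
      ∑ s ∈ S, Real.log (R / ‖s + (u : ℂ) - (1 / 2 + T₀ * Complex.I + u)‖) := by
    refine Finset.sum_congr rfl fun s _ => ?_
    have e : s + (u : ℂ) - (1 / 2 + T₀ * Complex.I + u) = s - (1 / 2 + T₀ * Complex.I) := by ring
    rw [e]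
  rw [hl2] at hS3
  have hmain := hS3.trans hl
  have hlV : Real.log V ≤ 5 / 4 * ε * Real.log (X i (T i)) + (1 - 1 / θ) / 4 * Real.log (Q i (T i)) :=
    fin_dense hθ hr hn1 hν0 hνe1 hνe2 hε₂0.le hε₂1.le hε1 hℓ0 hℓB hΛ0 (Real.log_nonneg hV1) hnL
      (LL_le (by omega)) hbig hmain
  have hlV' : Real.log V ≤ ε' * Real.log (X i (T i)) + (1 - 1 / θ) / 4 * Real.log (Q i (T i)) := by
    have h1 : 5 / 4 * ε * Real.log (X i (T i)) ≤ ε' * Real.log (X i (T i)) :=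
      mul_le_mul_of_nonneg_right (by linarith) hΛ0.le
    linarith
  calc V ≤ Real.exp (ε' * Real.log (X i (T i)) + (1 - 1 / θ) / 4 * Real.log (Q i (T i))) :=
        (Real.log_le_iff_le_exp hV0).1 hlV'
    _ = X i (T i) ^ ε' * Q i (T i) ^ ((1 - 1 / θ) / 4) := by
        rw [Real.exp_add, Real.rpow_def_of_pos hXp, Real.rpow_def_of_pos hQp]
        congr 2 <;> ring
    _ ≤ _ := mul_le_mul_of_nonneg_left (le_max_right _ _) (by positivity)

end Pool.Agent.T2h09.LD
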