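import Mathlib
import Pool.Agent.T2h09.LD.Crit

/-!
The converse.
-/

set_option autoImplicit false

open Complex Filter Topology Metric Set
open W587.PL Pool.Agent.TH804.MS

set_option maxHeartbeats 4000000

namespace Pool.Agent.T2h09.LD

/-- a bound on the critical line gives a bound near the line -/
theorem near_line {B : ℝ} (hB : 1 ≤ B) :
    ∃ a δ W C : ℝ, 1 / 2 < a ∧ a ≤ 3 / 4 ∧ 0 < δ ∧ 1 ≤ W ∧ 0 ≤ C ∧
    ∀ (F : ℂ → ℂ) (Λ ℓ : ℝ), 0 ≤ Λ → Loc F a δ B W Λ ℓ → ∀ M : ℝ, 1 ≤ M →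
      (∀ y : ℝ, |y| ≤ W → ‖F (y * I)‖ ≤ M) → ∀ z : ℂ, ‖z‖ ≤ 1 / 2 →
        ‖F z‖ ≤ M * Real.exp (C * Λ * ‖z‖) := by
  have hBp : 0 < B := by linarith
  set V : ℝ := 2 * B + 2 with hV
  have hVc : 2 * B + 1 ≤ V ^ 2 := by rw [hV]; nlinarith
  refine ⟨3 / 4, 1, V, B + 5, by norm_num, le_rfl, one_pos, by linarith, by linarith, ?_⟩
  intro F Λ ℓ hΛ0 H M hM hFM z hz
  have hℓ0 := H.l0
  have hℓB := H.lB
  set G : ℂ → ℂ := GG F 1 Λ ℓ with hG
  have hGd : Differentiable ℂ G := GG_diff H.diff 1 Λ ℓ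
  have hedge : ∀ x y : ℝ, |x| ≤ 3 / 4 → |y| = V → ‖G (x + y * I)‖ ≤ 1 := by
    intro x y hx hy
    rw [hG, GG_norm]
    have h1 := H.crude x y hx hy.le
    have h2 : ℓ / 2 * x + 1 * Λ * (x ^ 2 - y ^ 2) ≤ -(B * Λ) := by
      have h3 : x ^ 2 ≤ 1 := by
        rw [sq_le_one_iff_abs_le_one]
        linarith
      have h4 : V ^ 2 = y ^ 2 := by
        rw [← sq_abs y, hy]
      have h5 : ℓ / 2 * x ≤ B * Λ := by
        have h51 : x ≤ 1 := by linarith [le_abs_self x]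
        have h52 : ℓ / 2 * x ≤ ℓ / 2 * 1 := mul_le_mul_of_nonneg_left h51 (by linarith)
        linarith
      have h6 : Λ * (x ^ 2 - y ^ 2) ≤ Λ * (1 - V ^ 2) :=
        mul_le_mul_of_nonneg_left (by linarith) hΛ0
      have h7 : (2 * B + 1) * Λ ≤ V ^ 2 * Λ := mul_le_mul_of_nonneg_right hVc hΛ0
      have h8 : Λ * (1 - V ^ 2) = Λ - V ^ 2 * Λ := by ring
      have h9 : (2 * B + 1) * Λ = 2 * (B * Λ) + Λ := by ring
      linarith
    calc ‖F (x + y * I)‖ * Real.exp (ℓ / 2 * x + 1 * Λ * (x ^ 2 - y ^ 2))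
        ≤ Real.exp (B * Λ) * Real.exp (-(B * Λ)) :=
          mul_le_mul h1 (Real.exp_le_exp.2 h2) (Real.exp_pos _).le (Real.exp_pos _).le
      _ = 1 := by rw [← Real.exp_add]; simp
  set A : ℝ := Real.exp (2 * Λ + 3 / 4 * ℓ / 2) with hA
  have hA1 : 1 ≤ A := Real.one_le_exp (by positivity)
  have hside : ∀ x y : ℝ, |x| = 3 / 4 → |y| ≤ V → ‖G (x + y * I)‖ ≤ A := by
    intro x y hx hy
    rw [hG, GG_norm]
    have h2 := H.side x y hx hy
    have h3 : x ^ 2 ≤ 1 := by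
      rw [sq_le_one_iff_abs_le_one, hx]; norm_num
    have h31 : 0 ≤ y ^ 2 := sq_nonneg y
    have h4 : 1 * Λ * (x ^ 2 - y ^ 2) ≤ Λ * 1 := by
      rw [one_mul]
      exact mul_le_mul_of_nonneg_left (by linarith) hΛ0
    rw [hA]
    calc ‖F (x + y * I)‖ * Real.exp (ℓ / 2 * x + 1 * Λ * (x ^ 2 - y ^ 2))
        ≤ Real.exp (1 * Λ + (3 / 4 - x) * ℓ / 2) * Real.exp (ℓ / 2 * x + Λ * 1) :=
          mul_le_mul h2 (Real.exp_le_exp.2 (by linarith)) (Real.exp_pos _).le (Real.exp_pos _).le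
      _ = _ := by rw [← Real.exp_add]; congr 1; ring
  have hline : ∀ y : ℝ, |y| ≤ V → ‖G (y * I)‖ ≤ M := by
    intro y hy
    have h1 := GG_norm F 1 Λ ℓ 0 y
    rw [Complex.ofReal_zero, zero_add] at h1
    rw [hG, h1]
    have h2 : Real.exp (ℓ / 2 * 0 + 1 * Λ * (0 ^ 2 - y ^ 2)) ≤ 1 := by
      rw [Real.exp_le_one_iff]
      have : 0 ≤ Λ * y ^ 2 := by positivity
      linarith
    calc ‖F (y * I)‖ * Real.exp (ℓ / 2 * 0 + 1 * Λ * (0 ^ 2 - y ^ 2)) ≤ ‖F (y * I)‖ * 1 :=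
          mul_le_mul_of_nonneg_left h2 (norm_nonneg _)
      _ ≤ M := by rw [mul_one]; exact hFM y hy
  have hxz := Complex.abs_re_le_norm z
  have hyz := Complex.abs_im_le_norm z
  have hb := box hGd (a := 3 / 4) (V := V) (by norm_num) (by linarith) hM hA1 hline hside hedge
    (x := z.re) (y := z.im) (by linarith) (by linarith)
  have hGF := GG_norm F 1 Λ ℓ z.re z.im
  rw [Complex.re_add_im] at hGF hb
  have hFG : ‖F z‖ = ‖G z‖ * Real.exp (-(ℓ / 2 * z.re + 1 * Λ * (z.re ^ 2 - z.im ^ 2))) := by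
    rw [hG, hGF, mul_assoc, ← Real.exp_add]; simp
  rw [hFG]
  have hlM : 0 ≤ Real.log M := Real.log_nonneg hM
  have hlA : Real.log A = 2 * Λ + 3 / 4 * ℓ / 2 := Real.log_exp _
  have h0 := abs_nonneg z.re
  have h1 : |z.re| * ((Real.log A - Real.log M) / (3 / 4)) ≤ |z.re| * (3 * Λ + ℓ / 2) := by
    apply mul_le_mul_of_nonneg_left _ h0
    rw [hlA, div_le_iff₀ (by norm_num)]
    linarith
  calc ‖G z‖ * Real.exp (-(ℓ / 2 * z.re + 1 * Λ * (z.re ^ 2 - z.im ^ 2)))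
      ≤ M * Real.exp (|z.re| * (3 * Λ + ℓ / 2)) *
        Real.exp (-(ℓ / 2 * z.re + 1 * Λ * (z.re ^ 2 - z.im ^ 2))) := by
        apply mul_le_mul_of_nonneg_right _ (Real.exp_pos _).le
        refine hb.trans (mul_le_mul_of_nonneg_left (Real.exp_le_exp.2 h1) (by linarith))
    _ = M * Real.exp (|z.re| * (3 * Λ + ℓ / 2) +
        -(ℓ / 2 * z.re + 1 * Λ * (z.re ^ 2 - z.im ^ 2))) := by rw [mul_assoc, ← Real.exp_add]
    _ ≤ _ := by
        apply mul_le_mul_of_nonneg_left _ (by linarith)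
        apply Real.exp_le_exp.2
        have h2 : -(ℓ / 2 * z.re) ≤ ℓ / 2 * |z.re| := by
          have := mul_le_mul_of_nonneg_left (neg_abs_le z.re) (by linarith : 0 ≤ ℓ / 2)
          linarith
        have h3 : z.im ^ 2 ≤ ‖z‖ := by
          rw [← sq_abs]
          have h4 := abs_nonneg z.im
          nlinarith
        have h4 : Λ * z.im ^ 2 ≤ Λ * ‖z‖ := mul_le_mul_of_nonneg_left h3 hΛ0
        have h5 : 0 ≤ Λ * z.re ^ 2 := by positivity
        have h6 : ℓ * |z.re| ≤ B * Λ * ‖z‖ := mul_le_mul hℓB hxz h0 (by positivity)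
        have h7 : Λ * |z.re| ≤ Λ * ‖z‖ := mul_le_mul_of_nonneg_left hxz hΛ0
        have h8 : 0 ≤ Λ * ‖z‖ := by positivity
        linarith

variable {ι : Type*} {L : ι → ℂ → ℂ} {X Q : ι → ℝ → ℝ}

/-- the values of `F` on the critical line -/
lemma values (H : Fam2 L X Q) (T : ι → ℝ) {w : ι → List ℂ} {h : ι → ℂ → ℂ} {κ : ℝ} (hκ : 0 ≤ κ)
    (hw : Tame (fun i => X i (T i)) w) (hh : SmallP T (fun i => X i (T i)) h κ)
    (hE : NearExp L T (fun i => X i (T i)) κ) {ε : ℝ} (hε : 0 < ε) (W : ℝ) :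
    ∃ X₀ : ℝ, ∀ (i : ι) (t : ℝ), X₀ ≤ X i (T i) → |t - T i| ≤ W →
      ‖FF L w h i (1 / 2 + t * Complex.I)‖ ≤ X i (T i) ^ (κ + ε) := by
  obtain ⟨mX, hmX, hXs⟩ := H.Xs
  obtain ⟨B, hB, hloc⟩ := H.loc
  obtain ⟨a, δ, W', C, ha, ha', hδ, hW', hC, hnl⟩ := near_line hB
  obtain ⟨Λ₁, hΛ₁⟩ := hloc a δ W' ha ha' hδ (by linarith)
  obtain ⟨B₀, hB₀⟩ := hE (ε / 4) (|W| + W') (by linarith)
  obtain ⟨⟨K, hK⟩, hw2⟩ := hw
  have hK0 : (0 : ℝ) ≤ K := Nat.cast_nonneg K
  set η : ℝ := ε / (4 * (K + 1)) with hη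
  have hη0 : 0 < η := by positivity
  have hKη : K * η ≤ ε / 4 := by
    have h1 : η * (4 * (K + 1)) = ε := by rw [hη]; field_simp
    have h2 : 0 ≤ η := hη0.le
    linarith [show η * (4 * (K + 1)) = 4 * (K * η) + 4 * η by ring]
  obtain ⟨Xw, hXw⟩ := hw2 η hη0
  obtain ⟨hhd, hh2⟩ := hh
  obtain ⟨rh, Xh, hrh, hhb⟩ := hh2 (ε / 2) W (by linarith)
  set PW : ℝ := (1 + |W|) ^ mX with hPW
  have hPW1 : 1 ≤ PW := Real.one_le_rpow (by linarith [abs_nonneg W]) hmX
  have hlP : 0 ≤ Real.log PW := Real.log_nonneg hPW1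
  set C₁ : ℝ := (1 + |B₀|) * Real.exp (2 * C * K) * 2 ^ K with hC₁
  have hC₁0 : 0 < C₁ := by have := abs_nonneg B₀; positivity
  set Λ₃ : ℝ := Real.log PW + |Λ₁| + 2 * K + 2 / η ^ 2 + 1 with hΛ₃
  refine ⟨Real.exp Λ₃ + |Xw| + |Xh| + (C₁ + 1) ^ (1 / (ε / 2)), fun i t hX ht => ?_⟩
  have hX1 := H.X1 i (T i)
  have hXp : 0 < X i (T i) := by linarith
  have hb1 := le_abs_self Xw
  have hb2 := abs_nonneg Xw
  have hb3 := le_abs_self Xh
  have hb4 := abs_nonneg Xh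
  have hb5 := Real.exp_pos Λ₃
  have hb6 : 0 ≤ (C₁ + 1) ^ (1 / (ε / 2)) := by positivity
  have hb7 := le_abs_self Λ₁
  have hb8 := abs_nonneg Λ₁
  set Λ : ℝ := Real.log (X i (T i)) with hΛ
  have hΛb : Λ₃ ≤ Λ := by rw [hΛ, Real.le_log_iff_exp_le hXp]; linarith
  have hq2 : 0 < 2 / η ^ 2 := by positivity
  have hΛ0 : 0 < Λ := by linarith
  have htW : |t - T i| ≤ |W| := ht.trans (le_abs_self W)
  -- conductors at `t`
  have hXt1 := H.X1 i t
  have hXt : X i t ≤ PW * X i (T i) := by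
    have h1 := hXs i (T i) (t - T i)
    rw [add_sub_cancel] at h1
    refine h1.trans (mul_le_mul_of_nonneg_right ?_ hXp.le)
    exact Real.rpow_le_rpow (by positivity) (by linarith) hmX
  have hXt' : X i (T i) ≤ PW * X i t := by
    have h1 := hXs i t (T i - t)
    rw [add_sub_cancel] at h1
    refine h1.trans (mul_le_mul_of_nonneg_right ?_ (by linarith))
    exact Real.rpow_le_rpow (by positivity) (by rw [abs_sub_comm]; linarith) hmX
  have hΛt : Real.log (X i t) ≤ 2 * Λ := by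
    have h1 := Real.log_le_log (by linarith) hXt
    rw [Real.log_mul (by linarith) hXp.ne'] at h1
    linarith
  have hΛt' : Λ₁ ≤ Real.log (X i t) := by
    have h1 := Real.log_le_log hXp hXt'
    rw [Real.log_mul (by linarith) (by linarith)] at h1
    linarith
  have hxpow : ∀ p : ℝ, X i (T i) ^ p = Real.exp (p * Λ) := fun p => by
    rw [Real.rpow_def_of_pos hXp, mul_comm]
  set M : ℝ := (1 + |B₀|) * X i (T i) ^ (κ + ε / 4) with hM
  have hxp1 : 1 ≤ X i (T i) ^ (κ + ε / 4) := Real.one_le_rpow hX1 (by linarith)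
  have hM1 : 1 ≤ M := by
    rw [hM]
    have := abs_nonneg B₀
    nlinarith
  have hL := hΛ₁ i t hΛt'
  have hnear := hnl _ _ _ (Real.log_nonneg hXt1) hL M hM1 (fun y hy => by
    have h1 := hB₀ i (t + y) (by
      have e : t + y - T i = (t - T i) + y := by ring
      rw [e]
      have := abs_add_le (t - T i) y
      linarith)
    have e : shf L i t (y * I) = L i (1 / 2 + ((t + y : ℝ) : ℂ) * Complex.I) := by
      unfold shf
      congr 1
      push_cast; ring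
    rw [e]
    refine h1.trans ?_
    rw [hM]
    exact mul_le_mul_of_nonneg_right (by linarith [le_abs_self B₀]) (by positivity))
  -- the operator
  have hlen : ((w i).length : ℝ) ≤ K := by exact_mod_cast hK i
  have hexpq : Λ ≤ Real.exp (η * Λ) := by
    have h1 : 2 / η ^ 2 ≤ Λ := by linarith
    rw [div_le_iff₀ (by positivity)] at h1
    have h2 := Real.quadratic_le_exp_of_nonneg (x := η * Λ) (by positivity)
    have h3 : 2 * Λ ≤ Λ * η ^ 2 * Λ := mul_le_mul_of_nonneg_right h1 hΛ0.le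
    have h4 : (η * Λ) ^ 2 = Λ * η ^ 2 * Λ := by ring
    have h5 : 0 ≤ η * Λ := by positivity
    linarith
  have hA0 : 0 ≤ M * Real.exp (2 * C * K) := by positivity
  have hOp : ‖Op (w i) (L i) (1 / 2 + t * Complex.I)‖ ≤
      M * Real.exp (2 * C * K) * (X i (T i) ^ η + 1 / (1 / Λ)) ^ (w i).length := by
    apply op_le (H.diff i) (d := 1 / Λ) (by positivity) hA0 (w i) _
      (fun a ha => (hXw i (by linarith) a ha).1)
    intro z' hz'
    have h2 : ((w i).length : ℝ) * (1 / Λ) ≤ K / Λ := by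
      rw [mul_one_div]
      exact div_le_div_of_nonneg_right hlen hΛ0.le
    have h3 : (K : ℝ) / Λ ≤ 1 / 2 := by
      rw [div_le_div_iff₀ hΛ0 (by norm_num)]; linarith
    have h4 : ‖z' - (1 / 2 + t * Complex.I)‖ ≤ K / Λ := hz'.trans h2
    have h5 := hnear (z' - (1 / 2 + t * Complex.I)) (h4.trans h3)
    have e : shf L i t (z' - (1 / 2 + t * Complex.I)) = L i z' := by
      unfold shf; congr 1; ring
    rw [e] at h5
    refine h5.trans (mul_le_mul_of_nonneg_left (Real.exp_le_exp.2 ?_) (by linarith))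
    calc C * Real.log (X i t) * ‖z' - (1 / 2 + t * Complex.I)‖ ≤ C * (2 * Λ) * (K / Λ) := by
          apply mul_le_mul _ h4 (norm_nonneg _) (by positivity)
          exact mul_le_mul_of_nonneg_left hΛt hC
      _ = 2 * C * K := by field_simp
  have hq1 : 1 ≤ X i (T i) ^ η := Real.one_le_rpow hX1 hη0.le
  have hpow : (X i (T i) ^ η + 1 / (1 / Λ)) ^ (w i).length ≤ 2 ^ K * X i (T i) ^ (ε / 4) := by
    rw [one_div_one_div]
    have h1 : Λ ≤ X i (T i) ^ η := by rw [hxpow]; exact hexpq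
    calc (X i (T i) ^ η + Λ) ^ (w i).length ≤ (2 * X i (T i) ^ η) ^ (w i).length :=
          pow_le_pow_left₀ (by positivity) (by linarith) _
      _ ≤ (2 * X i (T i) ^ η) ^ K := pow_le_pow_right₀ (by linarith) (hK i)
      _ = 2 ^ K * X i (T i) ^ (η * K) := by
          rw [mul_pow, ← Real.rpow_natCast (X i (T i) ^ η) K, ← Real.rpow_mul hXp.le]
      _ ≤ _ := by
          apply mul_le_mul_of_nonneg_left _ (by positivity)
          exact Real.rpow_le_rpow_of_exponent_le hX1 (by linarith [mul_comm η K])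
  have hOp2 : ‖Op (w i) (L i) (1 / 2 + t * Complex.I)‖ ≤ C₁ * X i (T i) ^ (κ + ε / 2) := by
    calc ‖Op (w i) (L i) (1 / 2 + t * Complex.I)‖
        ≤ M * Real.exp (2 * C * K) * (2 ^ K * X i (T i) ^ (ε / 4)) :=
          hOp.trans (mul_le_mul_of_nonneg_left hpow hA0)
      _ = C₁ * (X i (T i) ^ (κ + ε / 4) * X i (T i) ^ (ε / 4)) := by rw [hM, hC₁]; ring
      _ = C₁ * X i (T i) ^ (κ + ε / 2) := by
          rw [← Real.rpow_add hXp]; congr 2; ring
  have hhv : ‖h i (1 / 2 + t * Complex.I)‖ ≤ X i (T i) ^ (κ + ε / 2) := by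
    apply hhb i _ (by linarith)
    · simp [hrh.le]
    · simpa using ht
  have hbig : C₁ + 1 ≤ X i (T i) ^ (ε / 2) := large_of_rpow (by positivity) (by linarith) (by linarith)
  unfold FF
  calc ‖Op (w i) (L i) (1 / 2 + t * Complex.I) - h i (1 / 2 + t * Complex.I)‖
      ≤ C₁ * X i (T i) ^ (κ + ε / 2) + X i (T i) ^ (κ + ε / 2) :=
        (norm_sub_le _ _).trans (add_le_add hOp2 hhv)
    _ = (C₁ + 1) * X i (T i) ^ (κ + ε / 2) := by ring
    _ ≤ X i (T i) ^ (ε / 2) * X i (T i) ^ (κ + ε / 2) :=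
        mul_le_mul_of_nonneg_right hbig (by positivity)
    _ = X i (T i) ^ (κ + ε) := by rw [← Real.rpow_add hXp]; congr 1; ring

/-- equally spaced points of the critical line (as in `Pool.Agent.TH804.FM`) -/
lemma points {T ℓ d r : ℝ} (hℓ : 0 < ℓ) (hd : 0 < d) (hr : 0 < r) : ∃ S : Finset ℂ,
    (∀ s ∈ S, ∃ t : ℝ, T ≤ t ∧ t ≤ T + r ∧ s = 1 / 2 + t * Complex.I) ∧
    (∀ s ∈ S, ∀ s' ∈ S, s ≠ s' → d / ℓ ≤ |s.im - s'.im|) ∧ r * ℓ / d ≤ S.card := by
  classical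
  set δ : ℝ := d / ℓ with hδ
  have hδ0 : 0 < δ := by positivity
  set N : ℕ := ⌊r / δ⌋₊ with hN
  set pt : ℕ → ℂ := fun j => 1 / 2 + ((T + j * δ : ℝ) : ℂ) * Complex.I with hpt
  have him : ∀ j, (pt j).im = T + j * δ := fun j => by simp [hpt]
  have hinj : Function.Injective pt := by
    intro i j hij
    have h1 := congrArg Complex.im hij
    rw [him, him] at h1
    have h2 : (i:ℝ) * δ = j * δ := by linarith
    have h4 := mul_right_cancel₀ hδ0.ne' h2
    exact_mod_cast h4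
  refine ⟨(Finset.range (N + 1)).image pt, fun s hs => ?_, fun s hs s' hs' hne => ?_, ?_⟩
  · obtain ⟨j, hj, rfl⟩ := Finset.mem_image.1 hs
    rw [Finset.mem_range, Nat.lt_succ_iff] at hj
    have hjδ : (j:ℝ) * δ ≤ r := by
      have h1 : (j:ℝ) ≤ r / δ := (Nat.cast_le.2 hj).trans (Nat.floor_le (by positivity))
      rwa [le_div_iff₀ hδ0] at h1
    have hjδ0 : 0 ≤ (j:ℝ) * δ := by positivity
    exact ⟨T + j * δ, by linarith, by linarith, rfl⟩
  · obtain ⟨i, hi, rfl⟩ := Finset.mem_image.1 hs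
    obtain ⟨j, hj, rfl⟩ := Finset.mem_image.1 hs'
    have hij : i ≠ j := fun h => hne (by rw [h])
    have e2 : (pt i).im - (pt j).im = ((i:ℝ) - j) * δ := by
      rw [him, him]; ring
    rw [e2, abs_mul, abs_of_pos hδ0]
    have h1 : (1:ℝ) ≤ |(i:ℝ) - j| := by
      have h2 : (i:ℤ) - j ≠ 0 := by
        intro h
        exact hij (by omega)
      have h4 := Int.one_le_abs h2
      exact_mod_cast h4
    calc δ = 1 * δ := by rw [one_mul]
      _ ≤ |(i:ℝ) - j| * δ := mul_le_mul_of_nonneg_right h1 hδ0.le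
  · rw [Finset.card_image_of_injective _ hinj, Finset.card_range]
    have e : r * ℓ / d = r / δ := by rw [hδ]; field_simp
    rw [e]
    push_cast
    exact (Nat.lt_floor_add_one _).le

/-- **the converse** -/
theorem dense_of_near (H : Fam2 L X Q) (T : ι → ℝ) {w : ι → List ℂ} {h : ι → ℂ → ℂ} {κ : ℝ} (hκ : 0 ≤ κ)
    (hw : Tame (fun i => X i (T i)) w) (hh : SmallP T (fun i => X i (T i)) h κ)
    (hE : NearExp L T (fun i => X i (T i)) κ) {θ : ℝ} (hθ : 0 < θ) :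
    Dense (FF L w h) T (fun i => X i (T i)) (fun i => Q i (T i)) θ κ := by
  have hpi := Real.pi_pos
  obtain ⟨BQ, hBQ, hQX⟩ := H.QX
  intro ε hε
  refine ⟨2 * Real.pi * θ / (1 + BQ), by positivity, fun W r₀ hr₀ => ?_⟩
  obtain ⟨X₀, hX₀⟩ := values H T hκ hw hh hE hε (|W| + r₀)
  refine ⟨r₀, X₀, hr₀, le_rfl, fun i T' hX hT' => ?_⟩
  have hX1 := H.X1 i (T i)
  have hXp : 0 < X i (T i) := by linarith
  have hQ1 := H.Q1 i (T i)
  have hQp : 0 < Q i (T i) := by linarith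
  have hΛ0 : 0 ≤ Real.log (X i (T i)) := Real.log_nonneg hX1
  have hℓB : Real.log (Q i (T i)) ≤ BQ * Real.log (X i (T i)) := by
    have h1 := Real.log_le_log hQp (hQX i (T i))
    rwa [Real.log_rpow hXp] at h1
  simp only at hX ⊢
  rcases eq_or_lt_of_le (Real.log_nonneg hQ1) with h0 | h0
  · refine ⟨∅, by simp, by simp, ?_⟩
    rw [← h0]
    simp only [mul_zero, zero_div, Finset.card_empty, Nat.cast_zero, zero_add]
    positivity
  · obtain ⟨S, hS1, hS2, hS3⟩ := points (T := T') h0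
      (by positivity : 0 < 2 * Real.pi * θ) hr₀
    refine ⟨S, fun s hs => ?_, fun s hs s' hs' hne => ?_, ?_⟩
    · obtain ⟨t, h1, h2, rfl⟩ := hS1 s hs
      have e1 : (1 / 2 + (t : ℂ) * Complex.I).re = 1 / 2 := by simp
      have e2 : (1 / 2 + (t : ℂ) * Complex.I).im = t := by simp
      rw [e1, e2]
      refine ⟨by rw [sub_self, abs_zero]; exact hr₀.le, h1, h2, hX₀ i t hX ?_⟩
      have h3 : |t - T'| ≤ r₀ := by rw [abs_le]; constructor <;> linarith
      have h4 := abs_add_le (t - T') (T' - T i)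
      rw [sub_add_sub_cancel] at h4
      linarith [le_abs_self W]
    · refine le_trans ?_ (hS2 s hs s' hs' hne)
      have hΛp : 0 < Real.log (X i (T i)) := by
        rcases eq_or_lt_of_le hΛ0 with h | h
        · rw [← h] at hℓB; linarith
        · exact h
      rw [div_div, div_le_div_iff₀ (by positivity) h0]
      apply mul_le_mul_of_nonneg_left _ (by positivity)
      linarith
    · have : 0 ≤ ε * r₀ * Real.log (X i (T i)) := by positivity
      linarith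

end Pool.Agent.T2h09.LD
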