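import Mathlib
import Pool.Agent.T2h09.LD.Conv

/-!
The criteria for all heights.
-/

set_option autoImplicit false

open Complex Filter Topology Metric Set
open W587.PL

set_option maxHeartbeats 4000000

namespace Pool.Agent.T2h09.LD

variable {ι : Type*} {L : ι → ℂ → ℂ} {X Q : ι → ℝ → ℝ}

theorem comp {ι' : Type*} (H : Fam2 L X Q) (g : ι' → ι) :
    Fam2 (fun i => L (g i)) (fun i => X (g i)) (fun i => Q (g i)) where
  X1 := fun i => H.X1 (g i)
  Q1 := fun i => H.Q1 (g i)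
  Xs := by obtain ⟨m, hm, h⟩ := H.Xs; exact ⟨m, hm, fun i => h (g i)⟩
  Qs := by obtain ⟨m, hm, h⟩ := H.Qs; exact ⟨m, hm, fun i => h (g i)⟩
  QX := by obtain ⟨m, hm, h⟩ := H.QX; exact ⟨m, hm, fun i => h (g i)⟩
  diff := fun i => H.diff (g i)
  right := by intro δ hδ; obtain ⟨B, h⟩ := H.right δ hδ; exact ⟨B, fun i => h (g i)⟩
  refl := by obtain ⟨m, hm, h⟩ := H.refl; exact ⟨m, hm, fun i => h (g i)⟩
  crude := by obtain ⟨C, B, hC, hB, h⟩ := H.crude; exact ⟨C, B, hC, hB, fun i => h (g i)⟩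

lemma near_of_expo (H : Fam2 L X Q) {κ : ℝ} (hκ : 0 ≤ κ) (hE : Expo L X κ) (T : ι → ℝ) :
    NearExp L T (fun i => X i (T i)) κ := by
  obtain ⟨mX, hmX, hXs⟩ := H.Xs
  intro ε W hε
  obtain ⟨B, hB⟩ := hE ε hε
  set PW : ℝ := (1 + |W|) ^ mX with hPW
  have hPW1 : 1 ≤ PW := Real.one_le_rpow (by linarith [abs_nonneg W]) hmX
  refine ⟨|B| * PW ^ (κ + ε), fun i t ht => ?_⟩
  have hX1 := H.X1 i (T i)
  have hXp : 0 < X i (T i) := by linarith
  have hXt1 := H.X1 i t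
  have hXt : X i t ≤ PW * X i (T i) := by
    have h1 := hXs i (T i) (t - T i)
    rw [add_sub_cancel] at h1
    refine h1.trans (mul_le_mul_of_nonneg_right ?_ hXp.le)
    exact Real.rpow_le_rpow (by positivity) (by linarith [le_abs_self W]) hmX
  calc ‖L i (1 / 2 + t * Complex.I)‖ ≤ B * X i t ^ (κ + ε) := hB i t
    _ ≤ |B| * (PW * X i (T i)) ^ (κ + ε) := by
        apply mul_le_mul (le_abs_self B) _ (by positivity) (abs_nonneg B)
        exact Real.rpow_le_rpow (by linarith) hXt (by linarith)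
    _ = |B| * PW ^ (κ + ε) * X i (T i) ^ (κ + ε) := by
        rw [Real.mul_rpow (by linarith) hXp.le]; ring

/-- the functions `(d/ds - w₁) ⋯ (d/ds - w_k) L i - h`, `w` and `h` depending on `(i, T)` -/
noncomputable abbrev GF (L : ι → ℂ → ℂ) (w : ι × ℝ → List ℂ) (h : ι × ℝ → ℂ → ℂ) : ι × ℝ → ℂ → ℂ :=
  FF (fun p : ι × ℝ => L p.1) w h

theorem expo_iff_dense (H : Fam2 L X Q) {w : ι × ℝ → List ℂ} {h : ι × ℝ → ℂ → ℂ} {κ : ℝ} (hκ : 0 ≤ κ)
    (hw : Tame (fun p : ι × ℝ => X p.1 p.2) w) (hh : SmallP (fun p => p.2) (fun p : ι × ℝ => X p.1 p.2) h κ)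
    {θ : ℝ} (hθ : 0 < θ) (hθ1 : θ ≤ 1) :
    Expo L X κ ↔ Dense (GF L w h) (fun p => p.2) (fun p => X p.1 p.2) (fun p => Q p.1 p.2) θ κ := by
  have H' := comp H (fun p : ι × ℝ => p.1)
  refine ⟨fun hE => ?_, fun hD ε hε => ?_⟩
  · refine dense_of_near H' (fun p : ι × ℝ => p.2) hκ hw hh ?_ hθ
    refine near_of_expo H' hκ ?_ _
    intro ε hε
    obtain ⟨B, hB⟩ := hE ε hε
    exact ⟨B, fun p T => hB p.1 T⟩
  · obtain ⟨B, hB⟩ := bound_of_dense H' (fun p : ι × ℝ => p.2) hκ hw hh hθ hD hε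
    refine ⟨B, fun i T => ?_⟩
    have h1 := hB (i, T)
    simp only at h1
    have hX1 := H.X1 i T
    have hXp : 0 < X i T := by linarith
    have h2 : Q i T ^ ((1 - 1 / θ) / 4) ≤ X i T ^ κ := by
      have h3 : 1 ≤ 1 / θ := by rw [le_div_iff₀ hθ]; linarith
      exact (Real.rpow_le_one_of_one_le_of_nonpos (H.Q1 i T) (by linarith)).trans
        (Real.one_le_rpow hX1 hκ)
    rw [max_eq_left h2, mul_assoc, ← Real.rpow_add hXp, add_comm ε] at h1
    exact h1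

/-- Lindelöf from bounds with small powers of `Q` -/
lemma expo_zero (H : Fam2 L X Q) {g : ℝ → ℝ}
    (hg : ∀ a : ℝ, 0 < a → a ≤ 1 → g a ≤ a)
    (h : ∀ a ε : ℝ, 0 < a → a ≤ 1 → 0 < ε → ∃ B : ℝ, ∀ (i : ι) (T : ℝ),
      ‖L i (1 / 2 + T * Complex.I)‖ ≤ B * X i T ^ ε * max (X i T ^ (0:ℝ)) (Q i T ^ g a)) : Expo L X 0 := by
  obtain ⟨BQ, hBQ, hQX⟩ := H.QX
  intro ε hε
  set a : ℝ := min (ε / (2 * (1 + BQ))) 1 with ha
  have ha0 : 0 < a := lt_min (by positivity) one_pos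
  have ha1 : a ≤ 1 := min_le_right _ _
  have haB : BQ * a ≤ ε / 2 := by
    have h1 : a ≤ ε / (2 * (1 + BQ)) := min_le_left _ _
    rw [le_div_iff₀ (by positivity)] at h1
    have h2 : a * (2 * (1 + BQ)) = 2 * (BQ * a) + 2 * a := by ring
    linarith
  obtain ⟨B, hB⟩ := h a (ε / 2) ha0 ha1 (by linarith)
  refine ⟨|B|, fun i T => (hB i T).trans ?_⟩
  have hX1 := H.X1 i T
  have hXp : 0 < X i T := by linarith
  have hQ1 := H.Q1 i T
  have h1 : Q i T ^ g a ≤ X i T ^ (ε / 2) := by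
    calc Q i T ^ g a ≤ Q i T ^ a := Real.rpow_le_rpow_of_exponent_le hQ1 (hg a ha0 ha1)
      _ ≤ (X i T ^ BQ) ^ a := Real.rpow_le_rpow (by linarith) (hQX i T) ha0.le
      _ = X i T ^ (BQ * a) := (Real.rpow_mul hXp.le _ _).symm
      _ ≤ _ := Real.rpow_le_rpow_of_exponent_le hX1 haB
  have h2 : max (X i T ^ (0:ℝ)) (Q i T ^ g a) ≤ X i T ^ (ε / 2) := by
    apply max_le _ h1
    rw [Real.rpow_zero]
    exact Real.one_le_rpow hX1 (by linarith)
  have h3 : 0 ≤ max (X i T ^ (0:ℝ)) (Q i T ^ g a) := le_max_of_le_left (by positivity)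
  calc B * X i T ^ (ε / 2) * max (X i T ^ (0:ℝ)) (Q i T ^ g a)
      ≤ |B| * X i T ^ (ε / 2) * X i T ^ (ε / 2) := by
        apply mul_le_mul _ h2 h3 (by positivity)
        exact mul_le_mul_of_nonneg_right (le_abs_self B) (by positivity)
    _ = |B| * X i T ^ (0 + ε) := by
        rw [mul_assoc, ← Real.rpow_add hXp]; congr 2; ring

theorem lindelof_iff_dense (H : Fam2 L X Q) {w : ι × ℝ → List ℂ} {h : ι × ℝ → ℂ → ℂ}
    (hw : Tame (fun p : ι × ℝ => X p.1 p.2) w)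
    (hh : SmallP (fun p => p.2) (fun p : ι × ℝ => X p.1 p.2) h 0) :
    Expo L X 0 ↔ ∀ θ : ℝ, 1 < θ →
      Dense (GF L w h) (fun p => p.2) (fun p => X p.1 p.2) (fun p => Q p.1 p.2) θ 0 := by
  have H' := comp H (fun p : ι × ℝ => p.1)
  refine ⟨fun hE θ hθ => ?_, fun hD => ?_⟩
  · refine dense_of_near H' (fun p : ι × ℝ => p.2) le_rfl hw hh ?_ (by linarith)
    refine near_of_expo H' le_rfl ?_ _
    intro ε hε
    obtain ⟨B, hB⟩ := hE ε hε
    exact ⟨B, fun p T => hB p.1 T⟩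
  · have e : ∀ a : ℝ, 0 < a → (1 - 1 / (1 + a)) / 4 = a / (1 + a) / 4 := fun a ha => by
      field_simp; ring
    refine expo_zero H (g := fun a => (1 - 1 / (1 + a)) / 4) (fun a ha _ => ?_)
      fun a ε ha ha1 hε => ?_
    · rw [e a ha]
      have h2 : a / (1 + a) ≤ a := div_le_self ha.le (by linarith)
      linarith
    · obtain ⟨B, hB⟩ := bound_of_dense H' (fun p : ι × ℝ => p.2) le_rfl hw hh (θ := 1 + a) (by linarith)
        (hD (1 + a) (by linarith)) hε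
      exact ⟨B, fun i T => hB (i, T)⟩

theorem lindelof_of_zeros (H : Fam2 L X Q) {w : ι × ℝ → List ℂ} {h : ι × ℝ → ℂ → ℂ}
    (hw : Tame (fun p : ι × ℝ => X p.1 p.2) w)
    (hh : SmallP (fun p => p.2) (fun p : ι × ℝ => X p.1 p.2) h 0)
    (hZ : ∀ δ : ℝ, 0 < δ →
      ZeroDense (GF L w h) (fun p => p.2) (fun p => X p.1 p.2) (fun p => Q p.1 p.2) δ) :
    Expo L X 0 := by
  have H' := comp H (fun p : ι × ℝ => p.1)
  refine expo_zero H (g := fun a => a / 4) (fun a ha _ => by linarith)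
    fun a ε ha ha1 hε => ?_
  · obtain ⟨B, hB⟩ := bound_of_zeros H' (fun p : ι × ℝ => p.2) le_rfl hw hh ha.le ha1 (hZ a ha) hε
    exact ⟨B, fun i T => hB (i, T)⟩

end Pool.Agent.T2h09.LD
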